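import Pool.Agent.Q321.RB.Undir

/-!
# The unweighted red-blue s-t cut problem in undirected graphs is NP-complete: polynomial time
-/

namespace Pool.Agent.Q321.RB

open Pool.Agent.NPC Pool.Agent.NPC.H634R2

section PolyRed

variable {α : Type} [TEnc α]

theorem lin_poly {f : α → ℕ} (hf : Poly f) (a b : ℕ) : Poly (fun x => a * f x + b) :=
  NPC.Poly.add (NPC.Poly.mul (NPC.Poly.const a) hf) (NPC.Poly.const b)

theorem rE_poly {V : α → List ℕ} {E : α → List (ℕ × ℕ)} (hV : Poly V) (hE : Poly E) :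
    Poly (fun a => rE (V a) (E a)) := by
  have hz : Poly (fun a => (E a).zipIdx) := NPC.Poly.zipIdx hE
  have h2 : Poly (fun p : α × ((ℕ × ℕ) × ℕ) => p.2.2) := NPC.Poly.snd (NPC.Poly.snd NPC.Poly.id)
  have h11 : Poly (fun p : α × ((ℕ × ℕ) × ℕ) => p.2.1.1) := NPC.Poly.fst (NPC.Poly.fst (NPC.Poly.snd NPC.Poly.id))
  have h12 : Poly (fun p : α × ((ℕ × ℕ) × ℕ) => p.2.1.2) := NPC.Poly.snd (NPC.Poly.fst (NPC.Poly.snd NPC.Poly.id))
  unfold rE
  refine NPC.Poly.append (NPC.Poly.map (F := fun _ x => ((0, 3 * x.2 + 3), true)) hz ?_) ?_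
  · exact NPC.Poly.pair (NPC.Poly.pair (NPC.Poly.const 0) (lin_poly h2 3 3)) (NPC.Poly.const true)
  refine NPC.Poly.append (NPC.Poly.map (F := fun _ x => ((3 * x.2 + 3, 3 * x.1.1 + 2), true)) hz ?_) ?_
  · exact NPC.Poly.pair (NPC.Poly.pair (lin_poly h2 3 3) (lin_poly h11 3 2)) (NPC.Poly.const true)
  refine NPC.Poly.append (NPC.Poly.map (F := fun _ x => ((0, 3 * x.2 + 4), true)) hz ?_) ?_
  · exact NPC.Poly.pair (NPC.Poly.pair (NPC.Poly.const 0) (lin_poly h2 3 4)) (NPC.Poly.const true)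
  refine NPC.Poly.append (NPC.Poly.map (F := fun _ x => ((3 * x.2 + 4, 3 * x.1.2 + 2), true)) hz ?_) ?_
  · exact NPC.Poly.pair (NPC.Poly.pair (lin_poly h2 3 4) (lin_poly h12 3 2)) (NPC.Poly.const true)
  refine NPC.Poly.append (NPC.Poly.map (F := fun _ x => ((3 * x.1.1 + 2, 3 * x.1.2 + 2), true)) hz ?_) ?_
  · exact NPC.Poly.pair (NPC.Poly.pair (lin_poly h11 3 2) (lin_poly h12 3 2)) (NPC.Poly.const true)
  refine NPC.Poly.map (F := fun _ v => ((3 * v + 2, 1), false)) hV ?_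
  exact NPC.Poly.pair (NPC.Poly.pair (lin_poly (NPC.Poly.snd NPC.Poly.id) 3 2) (NPC.Poly.const 1)) (NPC.Poly.const false)

theorem rV_poly {V : α → List ℕ} {E : α → List (ℕ × ℕ)} (hV : Poly V) (hE : Poly E) :
    Poly (fun a => rV (V a) (E a)) := by
  have hz : Poly (fun a => (E a).zipIdx) := NPC.Poly.zipIdx hE
  have h2 : Poly (fun p : α × ((ℕ × ℕ) × ℕ) => p.2.2) := NPC.Poly.snd (NPC.Poly.snd NPC.Poly.id)
  unfold rV
  refine NPC.Poly.cons (NPC.Poly.const 0) (NPC.Poly.cons (NPC.Poly.const 1) (NPC.Poly.append ?_ (NPC.Poly.append ?_ ?_)))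
  · exact NPC.Poly.map (F := fun _ v => 3 * v + 2) hV (lin_poly (NPC.Poly.snd NPC.Poly.id) 3 2)
  · exact NPC.Poly.map (F := fun _ x => 3 * x.2 + 3) hz (lin_poly h2 3 3)
  · exact NPC.Poly.map (F := fun _ x => 3 * x.2 + 4) hz (lin_poly h2 3 4)

theorem red_poly : Poly red := by
  have hV : Poly (fun I : (List ℕ × List (ℕ × ℕ)) × ℕ => I.1.1) := NPC.Poly.fst (NPC.Poly.fst NPC.Poly.id)
  have hE : Poly (fun I : (List ℕ × List (ℕ × ℕ)) × ℕ => I.1.2) := NPC.Poly.snd (NPC.Poly.fst NPC.Poly.id)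
  have hk : Poly (fun I : (List ℕ × List (ℕ × ℕ)) × ℕ => I.2) := NPC.Poly.snd NPC.Poly.id
  have hc : Poly (fun I : (List ℕ × List (ℕ × ℕ)) × ℕ => I.2 * (I.2 - 1) / 2) :=
    NPC.Poly.div (NPC.Poly.mul hk (NPC.Poly.sub hk (NPC.Poly.const 1))) (NPC.Poly.const 2)
  have hl : Poly (fun I : (List ℕ × List (ℕ × ℕ)) × ℕ => I.1.2.length) := NPC.Poly.length hE
  unfold red
  refine NPC.Poly.ite (NPC.Poly.decide_le hc hl) ?_ (NPC.Poly.const noInst)
  exact NPC.Poly.pair (NPC.Poly.pair (rV_poly hV hE) (rE_poly hV hE)) (NPC.Poly.pair (NPC.Poly.const (0, 1))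
    (NPC.Poly.pair (NPC.Poly.mul (NPC.Poly.const 2) (NPC.Poly.sub hl hc)) hk))

end PolyRed

theorem hardI_redBlueCut : HardI RedBlueCut :=
  (hardPr_CLIQUE.trans (Pr' := fun _ => True) red_poly (fun _ _ => trivial)
    (fun I hI => red_correct hI.1 hI.2)).toHardI

/-! ### Membership in NP -/

/-- The test for coloured graphs. -/
def graphTest (V : List ℕ) (E : List ((ℕ × ℕ) × Bool)) : Bool :=
  (V.zipIdx.all (fun p => V.zipIdx.all (fun q => !decide (p.1 = q.1) || decide (p.2 = q.2))) &&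
    E.all (fun e => decide (e.1.1 ∈ V) && decide (e.1.2 ∈ V) && !decide (e.1.1 = e.1.2))) &&
  E.zipIdx.all (fun p => E.zipIdx.all (fun q =>
    !((decide (p.1.1.1 = q.1.1.1) && decide (p.1.1.2 = q.1.1.2)) ||
      (decide (p.1.1.1 = q.1.1.2) && decide (p.1.1.2 = q.1.1.1))) || decide (p.2 = q.2)))

theorem nodup_iff_zip {α β : Type} (l : List α) (f : α → β) :
    (l.map f).Nodup ↔ ∀ p ∈ l.zipIdx, ∀ q ∈ l.zipIdx, f p.1 = f q.1 → p.2 = q.2 := by
  rw [List.nodup_iff_injective_getElem]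
  constructor
  · rintro h ⟨a, i⟩ hp ⟨b, j⟩ hq hab
    rw [List.mem_zipIdx_iff_getElem?] at hp hq
    simp only at hp hq hab ⊢
    obtain ⟨hi, rfl⟩ := List.getElem?_eq_some_iff.1 hp
    obtain ⟨hj, rfl⟩ := List.getElem?_eq_some_iff.1 hq
    have := @h ⟨i, by simpa using hi⟩ ⟨j, by simpa using hj⟩ (by simpa using hab)
    simpa using this
  · rintro h ⟨i, hi⟩ ⟨j, hj⟩ hij
    have hi' : i < l.length := by simpa using hi
    have hj' : j < l.length := by simpa using hj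
    have := h (l[i], i) (List.mem_zipIdx_iff_getElem?.2 (by simp [hi']))
      (l[j], j) (List.mem_zipIdx_iff_getElem?.2 (by simp [hj'])) (by simpa using hij)
    simpa using this

theorem graphTest_iff {V : List ℕ} {E : List ((ℕ × ℕ) × Bool)} :
    graphTest V E = true ↔ IsColouredGraph V E := by
  unfold graphTest IsColouredGraph
  have h1 : V.Nodup ↔ (V.map (fun v => v)).Nodup := by simp
  rw [h1, nodup_iff_zip, nodup_iff_zip]
  simp only [Bool.and_eq_true, List.all_eq_true, Bool.or_eq_true, Bool.not_eq_true',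
    decide_eq_false_iff_not, decide_eq_true_eq, Sym2.eq_iff, and_assoc, ← Bool.not_eq_true]
  refine and_congr ?_ (and_congr ?_ ?_)
  · exact forall₄_congr fun p _ q _ => (imp_iff_not_or).symm
  · rfl
  · exact forall₄_congr fun p _ q _ => (imp_iff_not_or).symm

/-- The size of the cut of a set given as a list. -/
def cutCount (E : List ((ℕ × ℕ) × Bool)) (c : Bool) (w : List ℕ) : ℕ :=
  (E.filter (fun e => decide (e.2 = c) &&
    ((decide (e.1.1 ∈ w) && !decide (e.1.2 ∈ w)) ||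
      (!decide (e.1.1 ∈ w) && decide (e.1.2 ∈ w))))).length

theorem cutCount_eq (E : List ((ℕ × ℕ) × Bool)) (c : Bool) (w : List ℕ) :
    cutCount E c w = cutSize E c w.toFinset := by
  unfold cutCount cutSize
  rw [← List.countP_eq_length_filter]
  congr 1
  funext e
  rw [Bool.eq_iff_iff]
  simp only [Bool.and_eq_true, decide_eq_true_eq, Bool.or_eq_true, Bool.not_eq_true',
    decide_eq_false_iff_not, List.mem_toFinset]
  tauto

/-- The verifier. -/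
def ver (x : Inst × List ℕ) : Bool :=
  ((graphTest x.1.1.1 x.1.1.2 && (decide (x.1.2.1.1 ∈ x.1.1.1) && decide (x.1.2.1.2 ∈ x.1.1.1))) &&
    (!decide (x.1.2.1.1 = x.1.2.1.2) && x.2.all (fun v => decide (v ∈ x.1.1.1)))) &&
  ((decide (x.1.2.1.1 ∈ x.2) && !decide (x.1.2.1.2 ∈ x.2)) &&
    (decide (cutCount x.1.1.2 true x.2 ≤ x.1.2.2.1) &&
      decide (cutCount x.1.1.2 false x.2 ≤ x.1.2.2.2)))

section PolyVer

variable {α : Type} [TEnc α]

theorem poly_graphTest {V : α → List ℕ} {E : α → List ((ℕ × ℕ) × Bool)} (hV : Poly V)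
    (hE : Poly E) : Poly (fun a => graphTest (V a) (E a)) := by
  unfold graphTest
  refine NPC.Poly.and (NPC.Poly.and ?_ ?_) ?_
  · refine NPC.Poly.all (p := fun a p => (V a).zipIdx.all (fun q => !decide (p.1 = q.1) ||
      decide (p.2 = q.2))) (NPC.Poly.zipIdx hV) ?_
    refine NPC.Poly.all (p := fun (x : α × (ℕ × ℕ)) (q : ℕ × ℕ) => !decide (x.2.1 = q.1) ||
      decide (x.2.2 = q.2)) ((NPC.Poly.zipIdx hV).comp (NPC.Poly.fst NPC.Poly.id)) ?_
    exact NPC.Poly.or (NPC.Poly.not (NPC.Poly.decide_eq (NPC.Poly.fst (NPC.Poly.snd (NPC.Poly.fst NPC.Poly.id)))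
      (NPC.Poly.fst (NPC.Poly.snd NPC.Poly.id)))) (NPC.Poly.decide_eq (NPC.Poly.snd (NPC.Poly.snd (NPC.Poly.fst NPC.Poly.id)))
      (NPC.Poly.snd (NPC.Poly.snd NPC.Poly.id)))
  · refine NPC.Poly.all (p := fun a (e : (ℕ × ℕ) × Bool) => decide (e.1.1 ∈ V a) &&
      decide (e.1.2 ∈ V a) && !decide (e.1.1 = e.1.2)) hE ?_
    have h1 : Poly (fun x : α × ((ℕ × ℕ) × Bool) => x.2.1.1) :=
      NPC.Poly.fst (NPC.Poly.fst (NPC.Poly.snd NPC.Poly.id))
    have h2 : Poly (fun x : α × ((ℕ × ℕ) × Bool) => x.2.1.2) :=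
      NPC.Poly.snd (NPC.Poly.fst (NPC.Poly.snd NPC.Poly.id))
    have h3 : Poly (fun x : α × ((ℕ × ℕ) × Bool) => V x.1) := hV.comp (NPC.Poly.fst NPC.Poly.id)
    exact NPC.Poly.and (NPC.Poly.and (NPC.Poly.decide_mem h1 h3) (NPC.Poly.decide_mem h2 h3))
      (NPC.Poly.not (NPC.Poly.decide_eq h1 h2))
  · refine NPC.Poly.all (p := fun a (p : ((ℕ × ℕ) × Bool) × ℕ) => (E a).zipIdx.all (fun q =>
      !((decide (p.1.1.1 = q.1.1.1) && decide (p.1.1.2 = q.1.1.2)) ||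
      (decide (p.1.1.1 = q.1.1.2) && decide (p.1.1.2 = q.1.1.1))) || decide (p.2 = q.2)))
      (NPC.Poly.zipIdx hE) ?_
    refine NPC.Poly.all (p := fun (x : α × (((ℕ × ℕ) × Bool) × ℕ)) (q : ((ℕ × ℕ) × Bool) × ℕ) =>
      !((decide (x.2.1.1.1 = q.1.1.1) && decide (x.2.1.1.2 = q.1.1.2)) ||
      (decide (x.2.1.1.1 = q.1.1.2) && decide (x.2.1.1.2 = q.1.1.1))) || decide (x.2.2 = q.2))
      ((NPC.Poly.zipIdx hE).comp (NPC.Poly.fst NPC.Poly.id)) ?_
    have hp : Poly (fun y : (α × (((ℕ × ℕ) × Bool) × ℕ)) × (((ℕ × ℕ) × Bool) × ℕ) => y.1.2) :=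
      NPC.Poly.snd (NPC.Poly.fst NPC.Poly.id)
    have hq : Poly (fun y : (α × (((ℕ × ℕ) × Bool) × ℕ)) × (((ℕ × ℕ) × Bool) × ℕ) => y.2) :=
      NPC.Poly.snd NPC.Poly.id
    have p1 := NPC.Poly.fst (NPC.Poly.fst (NPC.Poly.fst hp))
    have p2 := NPC.Poly.snd (NPC.Poly.fst (NPC.Poly.fst hp))
    have q1 := NPC.Poly.fst (NPC.Poly.fst (NPC.Poly.fst hq))
    have q2 := NPC.Poly.snd (NPC.Poly.fst (NPC.Poly.fst hq))
    exact NPC.Poly.or (NPC.Poly.not (NPC.Poly.or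
      (NPC.Poly.and (NPC.Poly.decide_eq p1 q1) (NPC.Poly.decide_eq p2 q2))
      (NPC.Poly.and (NPC.Poly.decide_eq p1 q2) (NPC.Poly.decide_eq p2 q1))))
      (NPC.Poly.decide_eq (NPC.Poly.snd hp) (NPC.Poly.snd hq))

theorem poly_cutCount {E : α → List ((ℕ × ℕ) × Bool)} {w : α → List ℕ} (c : Bool) (hE : Poly E)
    (hw : Poly w) : Poly (fun a => cutCount (E a) c (w a)) := by
  unfold cutCount
  refine NPC.Poly.length (NPC.Poly.filter (p := fun a (e : (ℕ × ℕ) × Bool) => decide (e.2 = c) &&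
    ((decide (e.1.1 ∈ w a) && !decide (e.1.2 ∈ w a)) ||
      (!decide (e.1.1 ∈ w a) && decide (e.1.2 ∈ w a)))) hE ?_)
  have h1 : Poly (fun x : α × ((ℕ × ℕ) × Bool) => x.2.1.1) :=
    NPC.Poly.fst (NPC.Poly.fst (NPC.Poly.snd NPC.Poly.id))
  have h2 : Poly (fun x : α × ((ℕ × ℕ) × Bool) => x.2.1.2) :=
    NPC.Poly.snd (NPC.Poly.fst (NPC.Poly.snd NPC.Poly.id))
  have h3 : Poly (fun x : α × ((ℕ × ℕ) × Bool) => w x.1) := hw.comp (NPC.Poly.fst NPC.Poly.id)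
  have h4 : Poly (fun x : α × ((ℕ × ℕ) × Bool) => x.2.2) := NPC.Poly.snd (NPC.Poly.snd NPC.Poly.id)
  exact NPC.Poly.and (NPC.Poly.decide_eq h4 (NPC.Poly.const c)) (NPC.Poly.or
    (NPC.Poly.and (NPC.Poly.decide_mem h1 h3) (NPC.Poly.not (NPC.Poly.decide_mem h2 h3)))
    (NPC.Poly.and (NPC.Poly.not (NPC.Poly.decide_mem h1 h3)) (NPC.Poly.decide_mem h2 h3)))

theorem poly_ver : Poly ver := by
  unfold ver
  have hV : Poly (fun x : Inst × List ℕ => x.1.1.1) := NPC.Poly.fst (NPC.Poly.fst (NPC.Poly.fst NPC.Poly.id))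
  have hE : Poly (fun x : Inst × List ℕ => x.1.1.2) := NPC.Poly.snd (NPC.Poly.fst (NPC.Poly.fst NPC.Poly.id))
  have hst : Poly (fun x : Inst × List ℕ => x.1.2.1) := NPC.Poly.fst (NPC.Poly.snd (NPC.Poly.fst NPC.Poly.id))
  have hrb : Poly (fun x : Inst × List ℕ => x.1.2.2) := NPC.Poly.snd (NPC.Poly.snd (NPC.Poly.fst NPC.Poly.id))
  have hw : Poly (fun x : Inst × List ℕ => x.2) := NPC.Poly.snd NPC.Poly.id
  refine NPC.Poly.and (NPC.Poly.and (NPC.Poly.and (poly_graphTest hV hE)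
    (NPC.Poly.and (NPC.Poly.decide_mem (NPC.Poly.fst hst) hV) (NPC.Poly.decide_mem (NPC.Poly.snd hst) hV)))
    (NPC.Poly.and (NPC.Poly.not (NPC.Poly.decide_eq (NPC.Poly.fst hst) (NPC.Poly.snd hst))) ?_))
    (NPC.Poly.and (NPC.Poly.and (NPC.Poly.decide_mem (NPC.Poly.fst hst) hw)
      (NPC.Poly.not (NPC.Poly.decide_mem (NPC.Poly.snd hst) hw)))
      (NPC.Poly.and (NPC.Poly.decide_le (poly_cutCount true hE hw) (NPC.Poly.fst hrb))
        (NPC.Poly.decide_le (poly_cutCount false hE hw) (NPC.Poly.snd hrb))))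
  exact NPC.Poly.all (p := fun (x : Inst × List ℕ) (v : ℕ) => decide (v ∈ x.1.1.1)) hw
    (NPC.Poly.decide_mem (NPC.Poly.snd NPC.Poly.id) (hV.comp (NPC.Poly.fst NPC.Poly.id)))

end PolyVer

theorem sz_sublist {β : Type} [TEnc β] {l l' : List β} (h : l.Sublist l') : sz l ≤ sz l' := by
  induction h with
  | slnil => exact le_rfl
  | cons a _ ih => simp only [sz_list_cons]; omega
  | cons_cons a _ ih => simp only [sz_list_cons]; omega

theorem inNPP_redBlueCut : InNPP RedBlueCut := by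
  refine inNPP_of poly_ver Polynomial.X ?_
  rintro ⟨⟨V, E⟩, ⟨s, t⟩, ⟨r, b⟩⟩
  unfold RedBlueCut ver
  simp only [Bool.and_eq_true, decide_eq_true_eq, graphTest_iff, Bool.not_eq_true',
    decide_eq_false_iff_not, List.all_eq_true, cutCount_eq, Polynomial.eval_X]
  constructor
  · rintro ⟨hg, hs, ht, hst, X, hX, hsX, htX, h1, h2⟩
    have hm : ∀ x, x ∈ V.filter (fun v => decide (v ∈ X)) ↔ x ∈ X := by
      intro x
      simp only [List.mem_filter, decide_eq_true_eq]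
      exact ⟨fun h => h.2, fun h => ⟨hX x h, h⟩⟩
    have hfin : (V.filter (fun v => decide (v ∈ X))).toFinset = X := by
      ext x
      rw [List.mem_toFinset, hm]
    refine ⟨V.filter (fun v => decide (v ∈ X)), ?_, ⟨⟨⟨hg, hs, ht⟩, hst, ?_⟩, ⟨?_, ?_⟩, ?_, ?_⟩⟩
    · have := sz_sublist (List.filter_sublist (l := V) (p := fun v => decide (v ∈ X)))
      simp only [sz_pair]
      omega
    · intro v hv
      exact (List.mem_filter.1 hv).1
    · rw [hm]; exact hsX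
    · rw [hm]; exact htX
    · rw [hfin]; exact h1
    · rw [hfin]; exact h2
  · rintro ⟨w, -, ⟨⟨⟨hg, hs, ht⟩, hst, hw⟩, ⟨hsw, htw⟩, h1, h2⟩⟩
    exact ⟨hg, hs, ht, hst, w.toFinset, fun x hx => hw x (List.mem_toFinset.1 hx),
      List.mem_toFinset.2 hsw, fun h => htw (List.mem_toFinset.1 h), h1, h2⟩

end Pool.Agent.Q321.RB
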