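import Pool.Agent.NPC.Defs

/-!
# Red-blue cuts in undirected and directed graphs: the decision problems
-/

namespace Pool.Agent.Q321.RB

/-- The vertices and the coloured edges of a finite simple undirected graph: `V` lists the vertices
(each vertex once), and an entry `((u, v), c)` of `E` stands for an edge joining the distinct
vertices `u` and `v`, of colour `c` (`true` is red, `false` is blue); every edge is listed once, so
there are no parallel edges and every edge has one colour. -/
def IsColouredGraph (V : List ℕ) (E : List ((ℕ × ℕ) × Bool)) : Prop :=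
  V.Nodup ∧ (∀ e ∈ E, e.1.1 ∈ V ∧ e.1.2 ∈ V ∧ e.1.1 ≠ e.1.2) ∧
    (E.map (fun e => s(e.1.1, e.1.2))).Nodup

/-- The number of edges of colour `c` with exactly one end in `X`. -/
def cutSize (E : List ((ℕ × ℕ) × Bool)) (c : Bool) (X : Finset ℕ) : ℕ :=
  E.countP (fun e => decide (e.2 = c ∧ ¬ (e.1.1 ∈ X ↔ e.1.2 ∈ X)))

/-- Instances of the unweighted red-blue `s`-`t` cut problem: vertices, coloured edges,
the pair `(s, t)` and the pair of bounds `(r, b)`. -/
abbrev Inst : Type := (List ℕ × List ((ℕ × ℕ) × Bool)) × (ℕ × ℕ) × (ℕ × ℕ)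

/-- **The unweighted red-blue `s`-`t` cut problem in undirected graphs.** The instance is a finite
simple graph with red and blue edges, two distinct vertices `s`, `t` and numbers `r`, `b`;
the question is whether some vertex set `X` with `s ∈ X` and `t ∉ X` is left by at most `r` red
edges and at most `b` blue edges. -/
def RedBlueCut (I : Inst) : Prop :=
  IsColouredGraph I.1.1 I.1.2 ∧ I.2.1.1 ∈ I.1.1 ∧ I.2.1.2 ∈ I.1.1 ∧ I.2.1.1 ≠ I.2.1.2 ∧
    ∃ X : Finset ℕ, (∀ x ∈ X, x ∈ I.1.1) ∧ I.2.1.1 ∈ X ∧ I.2.1.2 ∉ X ∧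
      cutSize I.1.2 true X ≤ I.2.2.1 ∧ cutSize I.1.2 false X ≤ I.2.2.2

/-- The vertices and the coloured arcs of a finite simple digraph: `V` lists the vertices (each
vertex once), and an entry `((u, v), c)` of `A` stands for an arc from `u` to `v ≠ u`, of colour
`c` (`true` is red, `false` is blue); no arc is listed twice, so there are no parallel arcs. -/
def IsColouredDigraph (V : List ℕ) (A : List ((ℕ × ℕ) × Bool)) : Prop :=
  V.Nodup ∧ (∀ e ∈ A, e.1.1 ∈ V ∧ e.1.2 ∈ V ∧ e.1.1 ≠ e.1.2) ∧
    (A.map (fun e => e.1)).Nodup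

/-- The number of arcs of colour `c` with tail in `X` and head outside `X`. -/
def outSize (A : List ((ℕ × ℕ) × Bool)) (c : Bool) (X : Finset ℕ) : ℕ :=
  A.countP (fun e => decide (e.2 = c ∧ e.1.1 ∈ X ∧ e.1.2 ∉ X))

/-- **The red-blue cut problem in directed graphs.** The instance is a finite simple digraph with
red and blue arcs and numbers `r`, `b`; the question is whether some nonempty proper vertex set `X`
is left by at most `r` red arcs and at most `b` blue arcs. -/
def DirRedBlueCut (I : (List ℕ × List ((ℕ × ℕ) × Bool)) × (ℕ × ℕ)) : Prop :=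
  IsColouredDigraph I.1.1 I.1.2 ∧
    ∃ X : Finset ℕ, (∀ x ∈ X, x ∈ I.1.1) ∧ X.Nonempty ∧ (∃ y ∈ I.1.1, y ∉ X) ∧
      outSize I.1.2 true X ≤ I.2.1 ∧ outSize I.1.2 false X ≤ I.2.2

end Pool.Agent.Q321.RB
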