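import Pool.Agent.Q321.RB.UndirFin

/-!
# The red-blue cut problem in directed graphs is NP-complete
-/

namespace Pool.Agent.Q321.RB

open Pool.Agent.NPC Pool.Agent.NPC.H634R2

/-- All red arcs from a vertex of `A` to a different vertex of `B`. -/
def prodArcs (A B : List ℕ) : List ((ℕ × ℕ) × Bool) :=
  ((A.flatMap (fun a => B.map (fun b => (a, b)))).filter
    (fun p => !decide (p.1 = p.2))).map (fun p => (p, true))

theorem mem_prodArcs {A B : List ℕ} {e : (ℕ × ℕ) × Bool} : e ∈ prodArcs A B ↔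
    e.1.1 ∈ A ∧ e.1.2 ∈ B ∧ e.1.1 ≠ e.1.2 ∧ e.2 = true := by
  unfold prodArcs
  simp only [List.mem_map, List.mem_filter, List.mem_flatMap, Bool.not_eq_true',
    decide_eq_false_iff_not]
  constructor
  · rintro ⟨p, ⟨⟨a, ha, b, hb, rfl⟩, hne⟩, rfl⟩
    exact ⟨ha, hb, hne, rfl⟩
  · rintro ⟨h1, h2, h3, h4⟩
    obtain ⟨⟨a, b⟩, c⟩ := e
    simp only at h1 h2 h3 h4
    exact ⟨(a, b), ⟨⟨a, h1, b, h2, rfl⟩, h3⟩, by rw [h4]⟩

theorem prodArcs_fst (A B : List ℕ) : (prodArcs A B).map (fun e => e.1) =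
    (A ×ˢ B).filter (fun p => !decide (p.1 = p.2)) := by
  unfold prodArcs
  rw [List.map_map]
  exact List.map_id _

theorem prodArcs_nodup {A B : List ℕ} (hA : A.Nodup) (hB : B.Nodup) :
    ((prodArcs A B).map (fun e => e.1)).Nodup := by
  rw [prodArcs_fst]
  exact (hA.product hB).filter _

/-- The large clique replacing the source. -/
def sL (N : ℕ) : List ℕ := (List.range N).map (fun i => 4 * i + 0)

/-- The large clique replacing the sink. -/
def tL (N : ℕ) : List ℕ := (List.range N).map (fun i => 4 * i + 1)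

/-- The copies of the vertices. -/
def hL (V : List ℕ) : List ℕ := V.map (fun v => 4 * v + 2)

/-- The copies of the edges. -/
def eL (E : List (ℕ × ℕ)) : List ℕ := E.zipIdx.map (fun x => 4 * x.2 + 3)

/-- The vertices of the digraph. -/
def dV (V : List ℕ) (E : List (ℕ × ℕ)) : List ℕ :=
  sL (2 * E.length + 2) ++ (tL (2 * E.length + 2) ++ (hL V ++ eL E))

/-- The arcs of the digraph. -/
def dA (V : List ℕ) (E : List (ℕ × ℕ)) : List ((ℕ × ℕ) × Bool) :=
  prodArcs (dV V E) (sL (2 * E.length + 2)) ++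
  (prodArcs (tL (2 * E.length + 2)) (tL (2 * E.length + 2) ++ (hL V ++ eL E)) ++
  (E.zipIdx.map (fun x => ((0, 4 * x.2 + 3), true)) ++
  (E.zipIdx.map (fun x => ((4 * x.2 + 3, 4 * x.1.1 + 2), true)) ++
  (E.zipIdx.map (fun x => ((4 * x.2 + 3, 4 * x.1.2 + 2), true)) ++
  V.map (fun v => ((4 * v + 2, 1), false))))))

/-- A fixed instance without a solution. -/
def noDir : (List ℕ × List ((ℕ × ℕ) × Bool)) × (ℕ × ℕ) :=
  (([0, 1], [((0, 1), true), ((1, 0), true)]), (0, 0))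

/-- The reduction. -/
def dred (I : (List ℕ × List (ℕ × ℕ)) × ℕ) : (List ℕ × List ((ℕ × ℕ) × Bool)) × (ℕ × ℕ) :=
  if I.2 * (I.2 - 1) / 2 ≤ I.1.2.length then
    ((dV I.1.1 I.1.2, dA I.1.1 I.1.2), (I.1.2.length - I.2 * (I.2 - 1) / 2, I.2))
  else noDir

theorem mem_sL {N x : ℕ} : x ∈ sL N ↔ ∃ i, i < N ∧ 4 * i + 0 = x := by
  simp [sL]

theorem mem_tL {N x : ℕ} : x ∈ tL N ↔ ∃ i, i < N ∧ 4 * i + 1 = x := by
  simp [tL]

theorem mem_hL {V : List ℕ} {x : ℕ} : x ∈ hL V ↔ ∃ v ∈ V, 4 * v + 2 = x := by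
  simp [hL]

theorem mem_eL {E : List (ℕ × ℕ)} {x : ℕ} : x ∈ eL E ↔ ∃ y ∈ E.zipIdx, 4 * y.2 + 3 = x := by
  simp only [eL, List.mem_map]

theorem sL_nodup (N : ℕ) : (sL N).Nodup :=
  List.nodup_range.map (fun a b (h : 4 * a + 0 = 4 * b + 0) => by omega)

theorem tL_nodup (N : ℕ) : (tL N).Nodup :=
  List.nodup_range.map (fun a b (h : 4 * a + 1 = 4 * b + 1) => by omega)

theorem hL_nodup {V : List ℕ} (h : V.Nodup) : (hL V).Nodup :=
  h.map (fun a b (h : 4 * a + 2 = 4 * b + 2) => by omega)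

theorem eL_nodup (E : List (ℕ × ℕ)) : (eL E).Nodup :=
  (zipIdx_nodup' E).map_on fun _ hx _ hy hxy => zip_inj hx hy (by omega)

theorem he_nodup {V : List ℕ} {E : List (ℕ × ℕ)} (h : V.Nodup) : (hL V ++ eL E).Nodup := by
  rw [List.nodup_append']
  refine ⟨hL_nodup h, eL_nodup E, fun a ha hb => ?_⟩
  rw [mem_hL] at ha
  rw [mem_eL] at hb
  obtain ⟨x, -, hx⟩ := ha
  obtain ⟨y, -, hy⟩ := hb
  omega

theorem the_nodup {V : List ℕ} {E : List (ℕ × ℕ)} (h : V.Nodup) (N : ℕ) :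
    (tL N ++ (hL V ++ eL E)).Nodup := by
  rw [List.nodup_append']
  refine ⟨tL_nodup N, he_nodup h, fun a ha hb => ?_⟩
  rw [mem_tL] at ha
  rw [List.mem_append, mem_hL, mem_eL] at hb
  obtain ⟨x, -, hx⟩ := ha
  rcases hb with ⟨y, -, hy⟩ | ⟨y, -, hy⟩ <;> omega

theorem dV_nodup {V : List ℕ} {E : List (ℕ × ℕ)} (h : V.Nodup) : (dV V E).Nodup := by
  unfold dV
  rw [List.nodup_append']
  refine ⟨sL_nodup _, the_nodup h _, fun a ha hb => ?_⟩
  rw [mem_sL] at ha
  rw [List.mem_append, List.mem_append, mem_tL, mem_hL, mem_eL] at hb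
  obtain ⟨x, -, hx⟩ := ha
  rcases hb with ⟨y, -, hy⟩ | ⟨y, -, hy⟩ | ⟨y, -, hy⟩ <;> omega

theorem mem_dV {V : List ℕ} {E : List (ℕ × ℕ)} {x : ℕ} : x ∈ dV V E ↔
    x ∈ sL (2 * E.length + 2) ∨ x ∈ tL (2 * E.length + 2) ∨ x ∈ hL V ∨ x ∈ eL E := by
  simp only [dV, List.mem_append]

theorem mem_dA {V : List ℕ} {E : List (ℕ × ℕ)} {e : (ℕ × ℕ) × Bool} : e ∈ dA V E ↔
    e ∈ prodArcs (dV V E) (sL (2 * E.length + 2)) ∨
    e ∈ prodArcs (tL (2 * E.length + 2)) (tL (2 * E.length + 2) ++ (hL V ++ eL E)) ∨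
    (∃ x ∈ E.zipIdx, ((0, 4 * x.2 + 3), true) = e) ∨
    (∃ x ∈ E.zipIdx, ((4 * x.2 + 3, 4 * x.1.1 + 2), true) = e) ∨
    (∃ x ∈ E.zipIdx, ((4 * x.2 + 3, 4 * x.1.2 + 2), true) = e) ∨
    ∃ v ∈ V, ((4 * v + 2, 1), false) = e := by
  simp only [dA, List.mem_append, List.mem_map]

theorem zero_mem (E : List (ℕ × ℕ)) : 0 ∈ sL (2 * E.length + 2) := mem_sL.2 ⟨0, by omega, rfl⟩

theorem one_mem (E : List (ℕ × ℕ)) : 1 ∈ tL (2 * E.length + 2) := mem_tL.2 ⟨0, by omega, rfl⟩

theorem dA_ends {V : List ℕ} {E : List (ℕ × ℕ)} (h : IsGraph V E) :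
    ∀ e ∈ dA V E, e.1.1 ∈ dV V E ∧ e.1.2 ∈ dV V E ∧ e.1.1 ≠ e.1.2 := by
  intro e he
  have hH : ∀ v ∈ V, 4 * v + 2 ∈ dV V E := fun v hv =>
    mem_dV.2 (Or.inr (Or.inr (Or.inl (mem_hL.2 ⟨v, hv, rfl⟩))))
  have hEd : ∀ x ∈ E.zipIdx, 4 * x.2 + 3 ∈ dV V E := fun x hx =>
    mem_dV.2 (Or.inr (Or.inr (Or.inr (mem_eL.2 ⟨x, hx, rfl⟩))))
  rcases mem_dA.1 he with h' | h' | ⟨x, hx, rfl⟩ | ⟨x, hx, rfl⟩ | ⟨x, hx, rfl⟩ | ⟨v, hv, rfl⟩
  · obtain ⟨h1, h2, h3, -⟩ := mem_prodArcs.1 h'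
    exact ⟨h1, mem_dV.2 (Or.inl h2), h3⟩
  · obtain ⟨h1, h2, h3, -⟩ := mem_prodArcs.1 h'
    refine ⟨mem_dV.2 (Or.inr (Or.inl h1)), ?_, h3⟩
    rw [List.mem_append, List.mem_append] at h2
    exact mem_dV.2 (Or.inr h2)
  · exact ⟨mem_dV.2 (Or.inl (zero_mem E)), hEd x hx, by simp⟩
  · exact ⟨hEd x hx, hH _ (h.2.1 _ (zip_fst hx)).1, by simp only [ne_eq]; omega⟩
  · exact ⟨hEd x hx, hH _ (h.2.1 _ (zip_fst hx)).2.1, by simp only [ne_eq]; omega⟩
  · exact ⟨hH v hv, mem_dV.2 (Or.inr (Or.inl (one_mem E))), by simp⟩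

theorem dA_nodup {V : List ℕ} {E : List (ℕ × ℕ)} (h : IsGraph V E) :
    ((dA V E).map (fun e => e.1)).Nodup := by
  have hz := zipIdx_nodup' E
  unfold dA
  simp only [List.map_append, List.map_map]
  simp only [List.nodup_append', List.disjoint_append_right]
  refine ⟨prodArcs_nodup (dV_nodup h.1) (sL_nodup _),
    ⟨prodArcs_nodup (tL_nodup _) (the_nodup h.1 _), ⟨?_, ⟨?_, ⟨?_, ?_, ?_⟩, ?_, ?_⟩, ?_, ?_, ?_⟩,
      ?_, ?_, ?_, ?_⟩, ?_, ?_, ?_, ?_, ?_⟩
  · refine hz.map_on fun x hx y hy hxy => zip_inj hx hy ?_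
    simp only [Function.comp, Prod.mk.injEq] at hxy
    omega
  · refine hz.map_on fun x hx y hy hxy => zip_inj hx hy ?_
    simp only [Function.comp, Prod.mk.injEq] at hxy
    omega
  · refine hz.map_on fun x hx y hy hxy => zip_inj hx hy ?_
    simp only [Function.comp, Prod.mk.injEq] at hxy
    omega
  · refine h.1.map_on fun x hx y hy hxy => ?_
    simp only [Function.comp, Prod.mk.injEq] at hxy
    omega
  · intro a ha hb
    simp only [List.mem_map, Function.comp] at ha hb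
    obtain ⟨x, hx, rfl⟩ := ha
    obtain ⟨y, hy, hxy⟩ := hb
    simp only [Prod.mk.injEq] at hxy
    omega
  · intro a ha hb
    simp only [List.mem_map, Function.comp] at ha hb
    obtain ⟨x, hx, rfl⟩ := ha
    obtain ⟨y, hy, hxy⟩ := hb
    simp only [Prod.mk.injEq] at hxy
    have h1 : x.2 = y.2 := by omega
    have h2 := zip_inj hx hy h1
    subst h2
    have := (h.2.1 _ (zip_fst hx)).2.2
    omega
  all_goals
    intro a ha hb
    simp only [List.mem_map, Function.comp, mem_prodArcs, List.mem_append, mem_sL, mem_tL, mem_hL,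
      mem_eL] at ha hb
    obtain ⟨x, hx, rfl⟩ := ha
    obtain ⟨y, hy, hxy⟩ := hb
    simp only [Prod.mk.injEq, Prod.ext_iff] at hxy
    first
    | omega
    | (obtain ⟨h1, h2, -, -⟩ := hx
       first
       | (obtain ⟨i, -, hi⟩ := h1; omega)
       | (obtain ⟨i, -, hi⟩ := h2; omega)
       | (obtain ⟨i, -, hi⟩ := h2
          obtain ⟨h3, h4, -, -⟩ := hy
          rcases h4 with ⟨j, -, hj⟩ | ⟨j, -, hj⟩ | ⟨j, -, hj⟩ <;> omega)
       | (obtain ⟨j, -, hj⟩ := h1
          obtain ⟨i, -, hi⟩ := h2; omega))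

theorem isColoured_dred {V : List ℕ} {E : List (ℕ × ℕ)} (h : IsGraph V E) :
    IsColouredDigraph (dV V E) (dA V E) := ⟨dV_nodup h.1, dA_ends h, dA_nodup h⟩

/-- Counting through an injection. -/
theorem le_countP {α β : Type} {l : List α} (hl : l.Nodup) {A : List β} {p : β → Bool} (g : α → β)
    (hg : Function.Injective g) (h : ∀ x ∈ l, g x ∈ A ∧ p (g x) = true) :
    l.length ≤ A.countP p := by
  rw [List.countP_eq_length_filter, ← List.length_map g (as := l)]
  apply List.Subperm.length_le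
  apply List.Nodup.subperm (hl.map hg)
  intro y hy
  obtain ⟨x, hx, rfl⟩ := List.mem_map.1 hy
  exact List.mem_filter.2 (h x hx)

theorem filter_split (l : List ℕ) (X : Finset ℕ) :
    (l.filter (fun x => decide (x ∈ X))).length + (l.filter (fun x => decide (x ∉ X))).length =
      l.length := by
  have := countP_not_add l (fun x => decide (x ∈ X))
  rw [List.countP_eq_length_filter, List.countP_eq_length_filter] at this
  rw [← this, add_comm]
  congr 2
  apply List.filter_congr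
  intro x _
  simp

/-- Small cuts separate the source from the sink. -/
theorem forced {V : List ℕ} {E : List (ℕ × ℕ)} {X : Finset ℕ} {r : ℕ}
    (hr : outSize (dA V E) true X ≤ r) (hrm : r ≤ E.length) (hX : ∀ x ∈ X, x ∈ dV V E)
    (hne : X.Nonempty) (hpr : ∃ y ∈ dV V E, y ∉ X) :
    (∀ s ∈ sL (2 * E.length + 2), s ∈ X) ∧ ∀ t ∈ tL (2 * E.length + 2), t ∉ X := by
  obtain ⟨x, hx⟩ := hne
  have hS : ∀ s ∈ sL (2 * E.length + 2), s ∈ X := by
    intro y hy
    by_contra hyX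
    have h1 := filter_split (sL (2 * E.length + 2)) X
    have h2 : (sL (2 * E.length + 2)).length = 2 * E.length + 2 := by simp [sL]
    have h3 : ((sL (2 * E.length + 2)).filter (fun x => decide (x ∉ X))).length ≤
        outSize (dA V E) true X := by
      unfold outSize
      refine le_countP ((sL_nodup _).filter _) (fun s => ((x, s), true)) ?_ ?_
      · intro a b hab
        simpa using hab
      · intro s hs
        rw [List.mem_filter, decide_eq_true_eq] at hs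
        refine ⟨mem_dA.2 (Or.inl (mem_prodArcs.2 ⟨hX x hx, hs.1, ?_, rfl⟩)), ?_⟩
        · simp only [ne_eq]
          rintro rfl
          exact hs.2 hx
        · simp [hx, hs.2]
    have h4 : ((sL (2 * E.length + 2)).filter (fun x => decide (x ∈ X))).length ≤
        outSize (dA V E) true X := by
      unfold outSize
      refine le_countP ((sL_nodup _).filter _) (fun s => ((s, y), true)) ?_ ?_
      · intro a b hab
        simpa using hab
      · intro s hs
        rw [List.mem_filter, decide_eq_true_eq] at hs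
        refine ⟨mem_dA.2 (Or.inl (mem_prodArcs.2 ⟨hX s hs.2, hy, ?_, rfl⟩)), ?_⟩
        · simp only [ne_eq]
          rintro rfl
          exact hyX hs.2
        · simp [hyX, hs.2]
    omega
  refine ⟨hS, ?_⟩
  intro z hz hzX
  obtain ⟨y, hy, hyX⟩ := hpr
  have hy' : y ∈ tL (2 * E.length + 2) ++ (hL V ++ eL E) := by
    rcases mem_dV.1 hy with h | h
    · exact absurd (hS y h) hyX
    · rw [List.mem_append, List.mem_append]; exact h
  have h1 := filter_split (tL (2 * E.length + 2)) X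
  have h2 : (tL (2 * E.length + 2)).length = 2 * E.length + 2 := by simp [tL]
  have h3 : ((tL (2 * E.length + 2)).filter (fun x => decide (x ∈ X))).length ≤
      outSize (dA V E) true X := by
    unfold outSize
    refine le_countP ((tL_nodup _).filter _) (fun s => ((s, y), true)) ?_ ?_
    · intro a b hab
      simpa using hab
    · intro s hs
      rw [List.mem_filter, decide_eq_true_eq] at hs
      refine ⟨mem_dA.2 (Or.inr (Or.inl (mem_prodArcs.2 ⟨hs.1, hy', ?_, rfl⟩))), ?_⟩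
      · simp only [ne_eq]
        rintro rfl
        exact hyX hs.2
      · simp [hyX, hs.2]
  have h4 : ((tL (2 * E.length + 2)).filter (fun x => decide (x ∉ X))).length ≤
      outSize (dA V E) true X := by
    unfold outSize
    refine le_countP ((tL_nodup _).filter _) (fun s => ((z, s), true)) ?_ ?_
    · intro a b hab
      simpa using hab
    · intro s hs
      rw [List.mem_filter, decide_eq_true_eq] at hs
      refine ⟨mem_dA.2 (Or.inr (Or.inl (mem_prodArcs.2 ⟨hz, List.mem_append_left _ hs.1, ?_, rfl⟩))), ?_⟩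
      · simp only [ne_eq]
        rintro rfl
        exact hs.2 hzX
      · simp [hzX, hs.2]
  omega

end Pool.Agent.Q321.RB
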