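import Pool.Agent.Q321.RB.Dir

/-!
# The red-blue cut problem in directed graphs is NP-complete: correctness and polynomial time
-/

namespace Pool.Agent.Q321.RB

open Pool.Agent.NPC Pool.Agent.NPC.H634R2

theorem out_prod_zero {A B : List ℕ} {X : Finset ℕ} (h : (∀ a ∈ A, a ∉ X) ∨ ∀ b ∈ B, b ∈ X) :
    (prodArcs A B).countP (fun e => decide (e.2 = true ∧ e.1.1 ∈ X ∧ e.1.2 ∉ X)) = 0 := by
  rw [List.countP_eq_zero]
  intro e he
  obtain ⟨h1, h2, -, -⟩ := mem_prodArcs.1 he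
  rw [decide_eq_true_eq]
  rintro ⟨-, h3, h4⟩
  rcases h with h | h
  · exact h _ h1 h3
  · exact h4 (h _ h2)

theorem out_true {V : List ℕ} {E : List (ℕ × ℕ)} {X : Finset ℕ}
    (hS : ∀ s ∈ sL (2 * E.length + 2), s ∈ X) (hT : ∀ t ∈ tL (2 * E.length + 2), t ∉ X) :
    outSize (dA V E) true X =
    E.zipIdx.countP (fun x => decide (4 * x.2 + 3 ∉ X)) +
    E.zipIdx.countP (fun x => decide (4 * x.2 + 3 ∈ X ∧ 4 * x.1.1 + 2 ∉ X)) +
    E.zipIdx.countP (fun x => decide (4 * x.2 + 3 ∈ X ∧ 4 * x.1.2 + 2 ∉ X)) := by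
  unfold outSize dA
  have h0 : 0 ∈ X := hS 0 (zero_mem E)
  simp only [List.countP_append, List.countP_map, Function.comp_def, true_and, Bool.false_eq_true,
    false_and, decide_false, List.countP_false, Function.const_apply, h0]
  rw [out_prod_zero (Or.inr hS), out_prod_zero (Or.inl hT)]
  omega

theorem out_prod_false {A B : List ℕ} {X : Finset ℕ} :
    (prodArcs A B).countP (fun e => decide (e.2 = false ∧ e.1.1 ∈ X ∧ e.1.2 ∉ X)) = 0 := by
  rw [List.countP_eq_zero]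
  intro e he
  obtain ⟨-, -, -, h4⟩ := mem_prodArcs.1 he
  rw [decide_eq_true_eq, h4]
  simp

theorem out_false {V : List ℕ} {E : List (ℕ × ℕ)} {X : Finset ℕ} :
    outSize (dA V E) false X = V.countP (fun v => decide (4 * v + 2 ∈ X ∧ 1 ∉ X)) := by
  unfold outSize dA
  simp only [List.countP_append, List.countP_map, Function.comp_def, true_and, Bool.true_eq_false,
    false_and, decide_false, List.countP_false, Function.const_apply]
  rw [out_prod_false, out_prod_false]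
  omega

theorem countP_sum3 {α : Type} (p1 p2 p3 q : α → Bool) : ∀ l : List α,
    (∀ x ∈ l, (if q x then 1 else 0) ≤ (if p1 x then 1 else 0) + (if p2 x then 1 else 0) +
      (if p3 x then 1 else 0)) →
    l.countP q ≤ l.countP p1 + l.countP p2 + l.countP p3
  | [], _ => by simp
  | a :: l, h => by
    have ih := countP_sum3 p1 p2 p3 q l (fun x hx => h x (List.mem_cons_of_mem _ hx))
    have ha := h a (by simp)
    simp only [List.countP_cons]
    omega

theorem countP_sum3' {α : Type} (p1 p2 p3 q : α → Bool) : ∀ l : List α,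
    (∀ x ∈ l, (if p1 x then 1 else 0) + (if p2 x then 1 else 0) +
      (if p3 x then 1 else 0) ≤ (if q x then 1 else 0)) →
    l.countP p1 + l.countP p2 + l.countP p3 ≤ l.countP q
  | [], _ => by simp
  | a :: l, h => by
    have ih := countP_sum3' p1 p2 p3 q l (fun x hx => h x (List.mem_cons_of_mem _ hx))
    have ha := h a (by simp)
    simp only [List.countP_cons]
    omega

theorem noDir_no : ¬ DirRedBlueCut noDir := by
  rintro ⟨-, X, hX, ⟨x, hx⟩, ⟨y, hy, hyX⟩, h, -⟩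
  have hxV := hX x hx
  simp only [noDir, List.mem_cons, List.not_mem_nil, or_false] at hxV hy h
  rcases hxV with rfl | rfl <;> rcases hy with rfl | rfl
  · exact hyX hx
  · simp [outSize, hx, hyX] at h
  · simp [outSize, hx, hyX] at h
  · exact hyX hx

theorem dred_correct {V : List ℕ} {E : List (ℕ × ℕ)} {k : ℕ} (h : IsGraph V E) (hk : 2 ≤ k) :
    CLIQUE ((V, E), k) ↔ DirRedBlueCut (dred ((V, E), k)) := by
  have hchoose : k.choose 2 = k * (k - 1) / 2 := Nat.choose_two_right k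
  have hins : ∀ U : Finset ℕ, inside E U ≤ E.length := fun U => List.countP_le_length
  have hq : ∀ U : Finset ℕ, E.zipIdx.countP
      (fun x => !(decide (x.1.1 ∈ U) && decide (x.1.2 ∈ U))) + inside E U = E.length := by
    intro U
    have h1 := countP_not_add E (fun e => decide (e.1 ∈ U) && decide (e.2 ∈ U))
    have h2 := countP_zipIdx E (fun e => !(decide (e.1 ∈ U) && decide (e.2 ∈ U)))
    rw [h2]
    exact h1
  unfold dred
  by_cases hle : k * (k - 1) / 2 ≤ E.length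
  swap
  · simp only [if_neg hle]
    constructor
    · rintro ⟨-, hc⟩
      obtain ⟨U, -, -, hU⟩ := (hasClique_iff h hk).1 hc
      have := hins U
      omega
    · intro h'; exact absurd h' noDir_no
  simp only [if_pos hle]
  unfold CLIQUE
  simp only
  rw [hasClique_iff h hk]
  constructor
  · rintro ⟨-, U, hUV, hUk, hU⟩
    let F := E.zipIdx.filter (fun x => decide (x.1.1 ∈ U) && decide (x.1.2 ∈ U))
    let X : Finset ℕ := (sL (2 * E.length + 2)).toFinset ∪ (U.image (fun v => 4 * v + 2) ∪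
      (F.map (fun x => 4 * x.2 + 3)).toFinset)
    have hmX : ∀ z, z ∈ X ↔ z ∈ sL (2 * E.length + 2) ∨ (∃ v ∈ U, 4 * v + 2 = z) ∨
        ∃ x ∈ F, 4 * x.2 + 3 = z := by
      intro z
      simp only [X, Finset.mem_union, Finset.mem_image, List.mem_toFinset, List.mem_map]
    have hS : ∀ s ∈ sL (2 * E.length + 2), s ∈ X := fun s hs => (hmX s).2 (Or.inl hs)
    have hT : ∀ t ∈ tL (2 * E.length + 2), t ∉ X := by
      intro t ht htX
      obtain ⟨i, -, hi⟩ := mem_tL.1 ht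
      rcases (hmX t).1 htX with h | ⟨v, -, h⟩ | ⟨v, -, h⟩
      · obtain ⟨j, -, hj⟩ := mem_sL.1 h
        omega
      · omega
      · omega
    have hv : ∀ v, 4 * v + 2 ∈ X ↔ v ∈ U := by
      intro v
      rw [hmX]
      constructor
      · rintro (h | ⟨w, hw, h⟩ | ⟨w, -, h⟩)
        · obtain ⟨j, -, hj⟩ := mem_sL.1 h
          omega
        · have : w = v := by omega
          exact this ▸ hw
        · omega
      · intro h
        exact Or.inr (Or.inl ⟨v, h, rfl⟩)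
    have he : ∀ x ∈ E.zipIdx, (4 * x.2 + 3 ∈ X ↔ (x.1.1 ∈ U ∧ x.1.2 ∈ U)) := by
      intro x hx
      rw [hmX]
      constructor
      · rintro (h | ⟨w, hw, h⟩ | ⟨w, hw, h⟩)
        · obtain ⟨j, -, hj⟩ := mem_sL.1 h
          omega
        · omega
        · rw [List.mem_filter] at hw
          have : w = x := zip_inj hw.1 hx (by omega)
          subst this
          simpa using hw.2
      · intro h
        refine Or.inr (Or.inr ⟨x, List.mem_filter.2 ⟨hx, by simpa using h⟩, rfl⟩)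
    refine ⟨isColoured_dred h, X, ?_, ⟨0, hS 0 (zero_mem E)⟩, ⟨1, mem_dV.2 (Or.inr (Or.inl
      (one_mem E))), hT 1 (one_mem E)⟩, ?_, ?_⟩
    · intro x hx
      rcases (hmX x).1 hx with h | ⟨v, hv, h⟩ | ⟨v, hv, h⟩
      · exact mem_dV.2 (Or.inl h)
      · exact mem_dV.2 (Or.inr (Or.inr (Or.inl (mem_hL.2 ⟨v, hUV v hv, h⟩))))
      · exact mem_dV.2 (Or.inr (Or.inr (Or.inr (mem_eL.2 ⟨v, (List.mem_filter.1 hv).1, h⟩))))
    · simp only
      rw [out_true hS hT]
      have key := countP_sum3' (fun x => decide (4 * x.2 + 3 ∉ X))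
        (fun x => decide (4 * x.2 + 3 ∈ X ∧ 4 * x.1.1 + 2 ∉ X))
        (fun x => decide (4 * x.2 + 3 ∈ X ∧ 4 * x.1.2 + 2 ∉ X))
        (fun x => !(decide (x.1.1 ∈ U) && decide (x.1.2 ∈ U))) E.zipIdx (by
          intro x hx
          simp only [he x hx, hv]
          by_cases hu : x.1.1 ∈ U <;> by_cases hw : x.1.2 ∈ U <;> simp [hu, hw])
      have h2 := hq U
      omega
    · simp only
      rw [out_false]
      refine le_trans (le_of_eq ?_) ((countP_mem_le h.1 U).trans hUk)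
      congr 1
      funext v
      simp [hT 1 (one_mem E), hv]
  · rintro ⟨-, X, hX, hne, hpr, hr, hb⟩
    simp only at hr hb hX hpr
    obtain ⟨hS, hT⟩ := forced hr (by omega) hX hne hpr
    refine ⟨h, V.toFinset.filter (fun v => 4 * v + 2 ∈ X), ?_, ?_, ?_⟩
    · intro v hv
      simp only [Finset.mem_filter, List.mem_toFinset] at hv
      exact hv.1
    · refine (card_filter_le h.1 _).trans ?_
      rw [out_false] at hb
      refine le_trans (le_of_eq ?_) hb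
      congr 1
      funext v
      simp [hT 1 (one_mem E)]
    · rw [out_true hS hT] at hr
      have key := countP_sum3 (fun x => decide (4 * x.2 + 3 ∉ X))
        (fun x => decide (4 * x.2 + 3 ∈ X ∧ 4 * x.1.1 + 2 ∉ X))
        (fun x => decide (4 * x.2 + 3 ∈ X ∧ 4 * x.1.2 + 2 ∉ X))
        (fun x => !(decide (x.1.1 ∈ V.toFinset.filter (fun v => 4 * v + 2 ∈ X)) &&
          decide (x.1.2 ∈ V.toFinset.filter (fun v => 4 * v + 2 ∈ X)))) E.zipIdx (by
          intro x hx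
          obtain ⟨e1, e2, -⟩ := h.2.1 _ (zip_fst hx)
          simp only [Finset.mem_filter, List.mem_toFinset, e1, e2, true_and]
          by_cases hu : 4 * x.1.1 + 2 ∈ X <;> by_cases hw : 4 * x.1.2 + 2 ∈ X <;>
            by_cases ha : 4 * x.2 + 3 ∈ X <;> simp [hu, hw, ha])
      have h2 := hq (V.toFinset.filter (fun v => 4 * v + 2 ∈ X))
      omega

section PolyRed

variable {α : Type} [TEnc α]

theorem prodArcs_poly {A B : α → List ℕ} (hA : NPC.Poly A) (hB : NPC.Poly B) :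
    NPC.Poly (fun a => prodArcs (A a) (B a)) := by
  unfold prodArcs
  refine NPC.Poly.map (F := fun _ (p : ℕ × ℕ) => (p, true)) (NPC.Poly.filter
    (p := fun _ (p : ℕ × ℕ) => !decide (p.1 = p.2)) (NPC.Poly.flatMap
    (F := fun a x => (B a).map (fun b => (x, b))) hA ?_) ?_) ?_
  · exact NPC.Poly.map (l := fun p : α × ℕ => B p.1) (F := fun p b => (p.2, b))
      (hB.comp (NPC.Poly.fst NPC.Poly.id))
      (NPC.Poly.pair (NPC.Poly.snd (NPC.Poly.fst NPC.Poly.id)) (NPC.Poly.snd NPC.Poly.id))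
  · exact NPC.Poly.not (NPC.Poly.decide_eq (NPC.Poly.fst (NPC.Poly.snd NPC.Poly.id))
      (NPC.Poly.snd (NPC.Poly.snd NPC.Poly.id)))
  · exact NPC.Poly.pair (NPC.Poly.snd NPC.Poly.id) (NPC.Poly.const true)

theorem range_poly {E : α → List (ℕ × ℕ)} (hE : NPC.Poly E) :
    NPC.Poly (fun a => List.range (2 * (E a).length + 2)) :=
  UPoly.range (UPoly.add (UPoly.mul (UPoly.const 2) (UPoly.length hE)) (UPoly.const 2))

theorem sL_poly {E : α → List (ℕ × ℕ)} (hE : NPC.Poly E) :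
    NPC.Poly (fun a => sL (2 * (E a).length + 2)) :=
  NPC.Poly.map (F := fun _ i => 4 * i + 0) (range_poly hE) (lin_poly (NPC.Poly.snd NPC.Poly.id) 4 0)

theorem tL_poly {E : α → List (ℕ × ℕ)} (hE : NPC.Poly E) :
    NPC.Poly (fun a => tL (2 * (E a).length + 2)) :=
  NPC.Poly.map (F := fun _ i => 4 * i + 1) (range_poly hE) (lin_poly (NPC.Poly.snd NPC.Poly.id) 4 1)

theorem hL_poly {V : α → List ℕ} (hV : NPC.Poly V) : NPC.Poly (fun a => hL (V a)) :=
  NPC.Poly.map (F := fun _ i => 4 * i + 2) hV (lin_poly (NPC.Poly.snd NPC.Poly.id) 4 2)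

theorem eL_poly {E : α → List (ℕ × ℕ)} (hE : NPC.Poly E) : NPC.Poly (fun a => eL (E a)) :=
  NPC.Poly.map (F := fun _ (x : (ℕ × ℕ) × ℕ) => 4 * x.2 + 3) (NPC.Poly.zipIdx hE)
    (lin_poly (NPC.Poly.snd (NPC.Poly.snd NPC.Poly.id)) 4 3)

theorem dV_poly {V : α → List ℕ} {E : α → List (ℕ × ℕ)} (hV : NPC.Poly V) (hE : NPC.Poly E) :
    NPC.Poly (fun a => dV (V a) (E a)) :=
  NPC.Poly.append (sL_poly hE) (NPC.Poly.append (tL_poly hE)
    (NPC.Poly.append (hL_poly hV) (eL_poly hE)))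

theorem dA_poly {V : α → List ℕ} {E : α → List (ℕ × ℕ)} (hV : NPC.Poly V) (hE : NPC.Poly E) :
    NPC.Poly (fun a => dA (V a) (E a)) := by
  have hz : NPC.Poly (fun a => (E a).zipIdx) := NPC.Poly.zipIdx hE
  have h2 : NPC.Poly (fun p : α × ((ℕ × ℕ) × ℕ) => p.2.2) :=
    NPC.Poly.snd (NPC.Poly.snd NPC.Poly.id)
  have h11 : NPC.Poly (fun p : α × ((ℕ × ℕ) × ℕ) => p.2.1.1) :=
    NPC.Poly.fst (NPC.Poly.fst (NPC.Poly.snd NPC.Poly.id))
  have h12 : NPC.Poly (fun p : α × ((ℕ × ℕ) × ℕ) => p.2.1.2) :=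
    NPC.Poly.snd (NPC.Poly.fst (NPC.Poly.snd NPC.Poly.id))
  unfold dA
  refine NPC.Poly.append (prodArcs_poly (dV_poly hV hE) (sL_poly hE)) ?_
  refine NPC.Poly.append (prodArcs_poly (tL_poly hE) (NPC.Poly.append (tL_poly hE)
    (NPC.Poly.append (hL_poly hV) (eL_poly hE)))) ?_
  refine NPC.Poly.append (NPC.Poly.map (F := fun _ x => ((0, 4 * x.2 + 3), true)) hz
    (NPC.Poly.pair (NPC.Poly.pair (NPC.Poly.const 0) (lin_poly h2 4 3)) (NPC.Poly.const true))) ?_
  refine NPC.Poly.append (NPC.Poly.map (F := fun _ x => ((4 * x.2 + 3, 4 * x.1.1 + 2), true)) hz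
    (NPC.Poly.pair (NPC.Poly.pair (lin_poly h2 4 3) (lin_poly h11 4 2)) (NPC.Poly.const true))) ?_
  refine NPC.Poly.append (NPC.Poly.map (F := fun _ x => ((4 * x.2 + 3, 4 * x.1.2 + 2), true)) hz
    (NPC.Poly.pair (NPC.Poly.pair (lin_poly h2 4 3) (lin_poly h12 4 2)) (NPC.Poly.const true))) ?_
  exact NPC.Poly.map (F := fun _ v => ((4 * v + 2, 1), false)) hV
    (NPC.Poly.pair (NPC.Poly.pair (lin_poly (NPC.Poly.snd NPC.Poly.id) 4 2) (NPC.Poly.const 1))
      (NPC.Poly.const false))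

theorem dred_poly : NPC.Poly dred := by
  have hV : NPC.Poly (fun I : (List ℕ × List (ℕ × ℕ)) × ℕ => I.1.1) :=
    NPC.Poly.fst (NPC.Poly.fst NPC.Poly.id)
  have hE : NPC.Poly (fun I : (List ℕ × List (ℕ × ℕ)) × ℕ => I.1.2) :=
    NPC.Poly.snd (NPC.Poly.fst NPC.Poly.id)
  have hk : NPC.Poly (fun I : (List ℕ × List (ℕ × ℕ)) × ℕ => I.2) := NPC.Poly.snd NPC.Poly.id
  have hc : NPC.Poly (fun I : (List ℕ × List (ℕ × ℕ)) × ℕ => I.2 * (I.2 - 1) / 2) :=
    NPC.Poly.div (NPC.Poly.mul hk (NPC.Poly.sub hk (NPC.Poly.const 1))) (NPC.Poly.const 2)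
  have hl : NPC.Poly (fun I : (List ℕ × List (ℕ × ℕ)) × ℕ => I.1.2.length) := NPC.Poly.length hE
  unfold dred
  refine NPC.Poly.ite (NPC.Poly.decide_le hc hl) ?_ (NPC.Poly.const noDir)
  exact NPC.Poly.pair (NPC.Poly.pair (dV_poly hV hE) (dA_poly hV hE))
    (NPC.Poly.pair (NPC.Poly.sub hl hc) hk)

end PolyRed

theorem hardI_dirRedBlueCut : HardI DirRedBlueCut :=
  (hardPr_CLIQUE.trans (Pr' := fun _ => True) dred_poly (fun _ _ => trivial)
    (fun I hI => dred_correct hI.1 hI.2)).toHardI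

/-! ### Membership in NP -/

/-- The test for coloured digraphs. -/
def digraphTest (V : List ℕ) (E : List ((ℕ × ℕ) × Bool)) : Bool :=
  (V.zipIdx.all (fun p => V.zipIdx.all (fun q => !decide (p.1 = q.1) || decide (p.2 = q.2))) &&
    E.all (fun e => decide (e.1.1 ∈ V) && decide (e.1.2 ∈ V) && !decide (e.1.1 = e.1.2))) &&
  E.zipIdx.all (fun p => E.zipIdx.all (fun q =>
    !decide (p.1.1 = q.1.1) || decide (p.2 = q.2)))

theorem digraphTest_iff {V : List ℕ} {E : List ((ℕ × ℕ) × Bool)} :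
    digraphTest V E = true ↔ IsColouredDigraph V E := by
  unfold digraphTest IsColouredDigraph
  have h1 : V.Nodup ↔ (V.map (fun v => v)).Nodup := by simp
  rw [h1, nodup_iff_zip, nodup_iff_zip]
  simp only [Bool.and_eq_true, List.all_eq_true, Bool.or_eq_true, Bool.not_eq_true',
    decide_eq_false_iff_not, decide_eq_true_eq, and_assoc]
  refine and_congr ?_ (and_congr ?_ ?_)
  · exact forall₄_congr fun p _ q _ => (imp_iff_not_or).symm
  · rfl
  · exact forall₄_congr fun p _ q _ => (imp_iff_not_or).symm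

/-- The number of arcs leaving a set given as a list. -/
def outCount (E : List ((ℕ × ℕ) × Bool)) (c : Bool) (w : List ℕ) : ℕ :=
  (E.filter (fun e => decide (e.2 = c) && (decide (e.1.1 ∈ w) && !decide (e.1.2 ∈ w)))).length

theorem outCount_eq (E : List ((ℕ × ℕ) × Bool)) (c : Bool) (w : List ℕ) :
    outCount E c w = outSize E c w.toFinset := by
  unfold outCount outSize
  rw [← List.countP_eq_length_filter]
  congr 1
  funext e
  rw [Bool.eq_iff_iff]
  simp only [Bool.and_eq_true, decide_eq_true_eq, Bool.not_eq_true',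
    decide_eq_false_iff_not, List.mem_toFinset]

/-- The verifier. -/
def dver (x : ((List ℕ × List ((ℕ × ℕ) × Bool)) × (ℕ × ℕ)) × List ℕ) : Bool :=
  ((digraphTest x.1.1.1 x.1.1.2 && x.2.all (fun v => decide (v ∈ x.1.1.1))) &&
    (!x.2.isEmpty && x.1.1.1.any (fun v => !decide (v ∈ x.2)))) &&
    (decide (outCount x.1.1.2 true x.2 ≤ x.1.2.1) &&
      decide (outCount x.1.1.2 false x.2 ≤ x.1.2.2))

section PolyVer

variable {α : Type} [TEnc α]

theorem poly_digraphTest {V : α → List ℕ} {E : α → List ((ℕ × ℕ) × Bool)} (hV : NPC.Poly V)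
    (hE : NPC.Poly E) : NPC.Poly (fun a => digraphTest (V a) (E a)) := by
  unfold digraphTest
  refine NPC.Poly.and (NPC.Poly.and ?_ ?_) ?_
  · refine NPC.Poly.all (p := fun a p => (V a).zipIdx.all (fun q => !decide (p.1 = q.1) ||
      decide (p.2 = q.2))) (NPC.Poly.zipIdx hV) ?_
    refine NPC.Poly.all (p := fun (x : α × (ℕ × ℕ)) (q : ℕ × ℕ) => !decide (x.2.1 = q.1) ||
      decide (x.2.2 = q.2)) ((NPC.Poly.zipIdx hV).comp (NPC.Poly.fst NPC.Poly.id)) ?_
    exact NPC.Poly.or (NPC.Poly.not (NPC.Poly.decide_eq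
      (NPC.Poly.fst (NPC.Poly.snd (NPC.Poly.fst NPC.Poly.id)))
      (NPC.Poly.fst (NPC.Poly.snd NPC.Poly.id))))
      (NPC.Poly.decide_eq (NPC.Poly.snd (NPC.Poly.snd (NPC.Poly.fst NPC.Poly.id)))
      (NPC.Poly.snd (NPC.Poly.snd NPC.Poly.id)))
  · refine NPC.Poly.all (p := fun a (e : (ℕ × ℕ) × Bool) => decide (e.1.1 ∈ V a) &&
      decide (e.1.2 ∈ V a) && !decide (e.1.1 = e.1.2)) hE ?_
    have h1 : NPC.Poly (fun x : α × ((ℕ × ℕ) × Bool) => x.2.1.1) :=
      NPC.Poly.fst (NPC.Poly.fst (NPC.Poly.snd NPC.Poly.id))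
    have h2 : NPC.Poly (fun x : α × ((ℕ × ℕ) × Bool) => x.2.1.2) :=
      NPC.Poly.snd (NPC.Poly.fst (NPC.Poly.snd NPC.Poly.id))
    have h3 : NPC.Poly (fun x : α × ((ℕ × ℕ) × Bool) => V x.1) :=
      hV.comp (NPC.Poly.fst NPC.Poly.id)
    exact NPC.Poly.and (NPC.Poly.and (NPC.Poly.decide_mem h1 h3) (NPC.Poly.decide_mem h2 h3))
      (NPC.Poly.not (NPC.Poly.decide_eq h1 h2))
  · refine NPC.Poly.all (p := fun a (p : ((ℕ × ℕ) × Bool) × ℕ) => (E a).zipIdx.all (fun q =>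
      !decide (p.1.1 = q.1.1) || decide (p.2 = q.2)))
      (NPC.Poly.zipIdx hE) ?_
    refine NPC.Poly.all (p := fun (x : α × (((ℕ × ℕ) × Bool) × ℕ)) (q : ((ℕ × ℕ) × Bool) × ℕ) =>
      !decide (x.2.1.1 = q.1.1) || decide (x.2.2 = q.2))
      ((NPC.Poly.zipIdx hE).comp (NPC.Poly.fst NPC.Poly.id)) ?_
    have hp : NPC.Poly (fun y : (α × (((ℕ × ℕ) × Bool) × ℕ)) × (((ℕ × ℕ) × Bool) × ℕ) => y.1.2) :=
      NPC.Poly.snd (NPC.Poly.fst NPC.Poly.id)
    have hq : NPC.Poly (fun y : (α × (((ℕ × ℕ) × Bool) × ℕ)) × (((ℕ × ℕ) × Bool) × ℕ) => y.2) :=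
      NPC.Poly.snd NPC.Poly.id
    exact NPC.Poly.or (NPC.Poly.not (NPC.Poly.decide_eq (NPC.Poly.fst (NPC.Poly.fst hp))
      (NPC.Poly.fst (NPC.Poly.fst hq)))) (NPC.Poly.decide_eq (NPC.Poly.snd hp) (NPC.Poly.snd hq))

theorem poly_outCount {E : α → List ((ℕ × ℕ) × Bool)} {w : α → List ℕ} (c : Bool)
    (hE : NPC.Poly E) (hw : NPC.Poly w) : NPC.Poly (fun a => outCount (E a) c (w a)) := by
  unfold outCount
  refine NPC.Poly.length (NPC.Poly.filter (p := fun a (e : (ℕ × ℕ) × Bool) => decide (e.2 = c) &&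
    (decide (e.1.1 ∈ w a) && !decide (e.1.2 ∈ w a))) hE ?_)
  have h1 : NPC.Poly (fun x : α × ((ℕ × ℕ) × Bool) => x.2.1.1) :=
    NPC.Poly.fst (NPC.Poly.fst (NPC.Poly.snd NPC.Poly.id))
  have h2 : NPC.Poly (fun x : α × ((ℕ × ℕ) × Bool) => x.2.1.2) :=
    NPC.Poly.snd (NPC.Poly.fst (NPC.Poly.snd NPC.Poly.id))
  have h3 : NPC.Poly (fun x : α × ((ℕ × ℕ) × Bool) => w x.1) :=
    hw.comp (NPC.Poly.fst NPC.Poly.id)
  have h4 : NPC.Poly (fun x : α × ((ℕ × ℕ) × Bool) => x.2.2) :=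
    NPC.Poly.snd (NPC.Poly.snd NPC.Poly.id)
  exact NPC.Poly.and (NPC.Poly.decide_eq h4 (NPC.Poly.const c))
    (NPC.Poly.and (NPC.Poly.decide_mem h1 h3) (NPC.Poly.not (NPC.Poly.decide_mem h2 h3)))

theorem poly_dver : NPC.Poly dver := by
  unfold dver
  have hV : NPC.Poly (fun x : ((List ℕ × List ((ℕ × ℕ) × Bool)) × (ℕ × ℕ)) × List ℕ => x.1.1.1) :=
    NPC.Poly.fst (NPC.Poly.fst (NPC.Poly.fst NPC.Poly.id))
  have hE : NPC.Poly (fun x : ((List ℕ × List ((ℕ × ℕ) × Bool)) × (ℕ × ℕ)) × List ℕ => x.1.1.2) :=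
    NPC.Poly.snd (NPC.Poly.fst (NPC.Poly.fst NPC.Poly.id))
  have hrb : NPC.Poly (fun x : ((List ℕ × List ((ℕ × ℕ) × Bool)) × (ℕ × ℕ)) × List ℕ => x.1.2) :=
    NPC.Poly.snd (NPC.Poly.fst NPC.Poly.id)
  have hw : NPC.Poly (fun x : ((List ℕ × List ((ℕ × ℕ) × Bool)) × (ℕ × ℕ)) × List ℕ => x.2) :=
    NPC.Poly.snd NPC.Poly.id
  refine NPC.Poly.and (NPC.Poly.and (NPC.Poly.and (poly_digraphTest hV hE) ?_)
    (NPC.Poly.and (NPC.Poly.not (NPC.Poly.isEmpty hw)) ?_))
      (NPC.Poly.and (NPC.Poly.decide_le (poly_outCount true hE hw) (NPC.Poly.fst hrb))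
        (NPC.Poly.decide_le (poly_outCount false hE hw) (NPC.Poly.snd hrb)))
  · exact NPC.Poly.all (p := fun (x : ((List ℕ × List ((ℕ × ℕ) × Bool)) × (ℕ × ℕ)) × List ℕ)
      (v : ℕ) => decide (v ∈ x.1.1.1)) hw
      (NPC.Poly.decide_mem (NPC.Poly.snd NPC.Poly.id) (hV.comp (NPC.Poly.fst NPC.Poly.id)))
  · exact NPC.Poly.any (p := fun (x : ((List ℕ × List ((ℕ × ℕ) × Bool)) × (ℕ × ℕ)) × List ℕ)
      (v : ℕ) => !decide (v ∈ x.2)) hV (NPC.Poly.not
      (NPC.Poly.decide_mem (NPC.Poly.snd NPC.Poly.id) (hw.comp (NPC.Poly.fst NPC.Poly.id))))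

end PolyVer

theorem inNPP_dirRedBlueCut : InNPP DirRedBlueCut := by
  refine inNPP_of poly_dver Polynomial.X ?_
  rintro ⟨⟨V, E⟩, ⟨r, b⟩⟩
  unfold DirRedBlueCut dver
  simp only [Bool.and_eq_true, decide_eq_true_eq, digraphTest_iff, Bool.not_eq_true',
    List.all_eq_true, outCount_eq, Polynomial.eval_X, List.any_eq_true,
    List.isEmpty_eq_false_iff, decide_eq_false_iff_not]
  constructor
  · rintro ⟨hg, X, hX, ⟨x, hx⟩, ⟨y, hy, hyX⟩, h1, h2⟩
    have hm : ∀ x, x ∈ V.filter (fun v => decide (v ∈ X)) ↔ x ∈ X := by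
      intro x
      simp only [List.mem_filter, decide_eq_true_eq]
      exact ⟨fun h => h.2, fun h => ⟨hX x h, h⟩⟩
    have hfin : (V.filter (fun v => decide (v ∈ X))).toFinset = X := by
      ext x
      rw [List.mem_toFinset, hm]
    refine ⟨V.filter (fun v => decide (v ∈ X)), ?_, ⟨⟨⟨hg, ?_⟩, ?_, ?_⟩, ?_, ?_⟩⟩
    · have := sz_sublist (List.filter_sublist (l := V) (p := fun v => decide (v ∈ X)))
      simp only [sz_pair]
      omega
    · intro v hv
      exact (List.mem_filter.1 hv).1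
    · exact List.ne_nil_of_mem ((hm x).2 hx)
    · exact ⟨y, hy, fun h => hyX ((hm y).1 h)⟩
    · rw [hfin]; exact h1
    · rw [hfin]; exact h2
  · rintro ⟨w, -, ⟨⟨⟨hg, hw⟩, hne, ⟨y, hy, hyw⟩⟩, h1, h2⟩⟩
    refine ⟨hg, w.toFinset, fun x hx => hw x (List.mem_toFinset.1 hx), ?_,
      ⟨y, hy, fun h => hyw (List.mem_toFinset.1 h)⟩, h1, h2⟩
    obtain ⟨a, l, rfl⟩ := List.exists_cons_of_ne_nil hne
    exact ⟨a, by simp⟩

end Pool.Agent.Q321.RB
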