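import Pool.Agent.Q321.RB.Defs
import Pool.Agent.H634R2.Clique
import Pool.Agent.NPC.Dec

/-!
# The unweighted red-blue s-t cut problem in undirected graphs is NP-complete
-/

namespace Pool.Agent.Q321.RB

open Pool.Agent.NPC Pool.Agent.NPC.H634R2

/-- The coloured edges of the reduction. -/
def rE (V : List ℕ) (E : List (ℕ × ℕ)) : List ((ℕ × ℕ) × Bool) :=
  (E.zipIdx.map (fun x => ((0, 3 * x.2 + 3), true)) ++
  (E.zipIdx.map (fun x => ((3 * x.2 + 3, 3 * x.1.1 + 2), true)) ++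
  (E.zipIdx.map (fun x => ((0, 3 * x.2 + 4), true)) ++
  (E.zipIdx.map (fun x => ((3 * x.2 + 4, 3 * x.1.2 + 2), true)) ++
  (E.zipIdx.map (fun x => ((3 * x.1.1 + 2, 3 * x.1.2 + 2), true)) ++
  V.map (fun v => ((3 * v + 2, 1), false)))))))

/-- The vertices of the reduction. -/
def rV (V : List ℕ) (E : List (ℕ × ℕ)) : List ℕ :=
  0 :: 1 :: (V.map (fun v => 3 * v + 2) ++ (E.zipIdx.map (fun x => 3 * x.2 + 3) ++
    E.zipIdx.map (fun x => 3 * x.2 + 4)))

/-- A fixed instance without a solution. -/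
def noInst : Inst := (([0, 1], [((0, 1), true)]), ((0, 1), (0, 0)))

/-- The reduction. -/
def red (I : (List ℕ × List (ℕ × ℕ)) × ℕ) : Inst :=
  if I.2 * (I.2 - 1) / 2 ≤ I.1.2.length then
    ((rV I.1.1 I.1.2, rE I.1.1 I.1.2), ((0, 1), (2 * (I.1.2.length - I.2 * (I.2 - 1) / 2), I.2)))
  else noInst

theorem zipIdx_snd_nodup {α : Type} (l : List α) : (l.zipIdx.map Prod.snd).Nodup := by
  rw [List.zipIdx_map_snd]
  exact List.nodup_range'

theorem zip_inj {α : Type} {l : List α} {x y : α × ℕ} (hx : x ∈ l.zipIdx) (hy : y ∈ l.zipIdx)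
    (h : x.2 = y.2) : x = y :=
  List.inj_on_of_nodup_map (zipIdx_snd_nodup l) hx hy h

theorem zip_fst {α : Type} {l : List α} {x : α × ℕ} (hx : x ∈ l.zipIdx) : x.1 ∈ l :=
  List.fst_mem_of_mem_zipIdx hx

theorem zipIdx_nodup' {α : Type} (l : List α) : l.zipIdx.Nodup :=
  List.Nodup.of_map _ (zipIdx_snd_nodup l)

theorem rV_nodup {V : List ℕ} {E : List (ℕ × ℕ)} (h : IsGraph V E) : (rV V E).Nodup := by
  unfold rV
  rw [List.nodup_cons, List.nodup_cons, List.nodup_append', List.nodup_append']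
  refine ⟨?_, ?_, ?_, ⟨?_, ?_, ?_⟩, ?_⟩
  · simp only [List.mem_cons, List.mem_append, List.mem_map]
    rintro (h | ⟨v, -, h⟩ | ⟨v, -, h⟩ | ⟨v, -, h⟩) <;> omega
  · simp only [List.mem_append, List.mem_map]
    rintro (⟨v, -, h⟩ | ⟨v, -, h⟩ | ⟨v, -, h⟩) <;> omega
  · exact h.1.map (fun a b (hab : 3 * a + 2 = 3 * b + 2) => by omega)
  · refine (zipIdx_nodup' E).map_on ?_
    intro x hx y hy hxy
    exact zip_inj hx hy (by omega)
  · refine (zipIdx_nodup' E).map_on ?_
    intro x hx y hy hxy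
    exact zip_inj hx hy (by omega)
  · intro a ha hb
    simp only [List.mem_map] at ha hb
    obtain ⟨x, -, rfl⟩ := ha
    obtain ⟨y, -, hy⟩ := hb
    omega
  · intro a ha hb
    simp only [List.mem_map, List.mem_append] at ha hb
    obtain ⟨x, -, rfl⟩ := ha
    rcases hb with ⟨y, -, hy⟩ | ⟨y, -, hy⟩ <;> omega

theorem mem_rE {V : List ℕ} {E : List (ℕ × ℕ)} {e : (ℕ × ℕ) × Bool} : e ∈ rE V E ↔
    (∃ x ∈ E.zipIdx, e = ((0, 3 * x.2 + 3), true) ∨ e = ((3 * x.2 + 3, 3 * x.1.1 + 2), true) ∨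
      e = ((0, 3 * x.2 + 4), true) ∨ e = ((3 * x.2 + 4, 3 * x.1.2 + 2), true) ∨
      e = ((3 * x.1.1 + 2, 3 * x.1.2 + 2), true)) ∨ ∃ v ∈ V, e = ((3 * v + 2, 1), false) := by
  unfold rE
  simp only [List.mem_append, List.mem_map]
  constructor
  · rintro (⟨x, hx, rfl⟩ | ⟨x, hx, rfl⟩ | ⟨x, hx, rfl⟩ | ⟨x, hx, rfl⟩ | ⟨x, hx, rfl⟩ | ⟨x, hx, rfl⟩)
    · exact Or.inl ⟨x, hx, Or.inl rfl⟩
    · exact Or.inl ⟨x, hx, Or.inr (Or.inl rfl)⟩
    · exact Or.inl ⟨x, hx, Or.inr (Or.inr (Or.inl rfl))⟩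
    · exact Or.inl ⟨x, hx, Or.inr (Or.inr (Or.inr (Or.inl rfl)))⟩
    · exact Or.inl ⟨x, hx, Or.inr (Or.inr (Or.inr (Or.inr rfl)))⟩
    · exact Or.inr ⟨x, hx, rfl⟩
  · rintro (⟨x, hx, (rfl | rfl | rfl | rfl | rfl)⟩ | ⟨x, hx, rfl⟩)
    · exact Or.inl ⟨x, hx, rfl⟩
    · exact Or.inr (Or.inl ⟨x, hx, rfl⟩)
    · exact Or.inr (Or.inr (Or.inl ⟨x, hx, rfl⟩))
    · exact Or.inr (Or.inr (Or.inr (Or.inl ⟨x, hx, rfl⟩)))
    · exact Or.inr (Or.inr (Or.inr (Or.inr (Or.inl ⟨x, hx, rfl⟩))))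
    · exact Or.inr (Or.inr (Or.inr (Or.inr (Or.inr ⟨x, hx, rfl⟩))))

theorem rE_ends {V : List ℕ} {E : List (ℕ × ℕ)} (h : IsGraph V E) :
    ∀ e ∈ rE V E, e.1.1 ∈ rV V E ∧ e.1.2 ∈ rV V E ∧ e.1.1 ≠ e.1.2 := by
  intro e he
  rw [mem_rE] at he
  have hv : ∀ v ∈ V, 3 * v + 2 ∈ rV V E := by
    intro v hv
    unfold rV
    simp only [List.mem_cons, List.mem_append, List.mem_map]
    right; right; left; exact ⟨v, hv, rfl⟩
  have ha : ∀ x ∈ E.zipIdx, 3 * x.2 + 3 ∈ rV V E := by
    intro x hx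
    unfold rV
    simp only [List.mem_cons, List.mem_append, List.mem_map]
    right; right; right; left; exact ⟨x, hx, rfl⟩
  have hb : ∀ x ∈ E.zipIdx, 3 * x.2 + 4 ∈ rV V E := by
    intro x hx
    unfold rV
    simp only [List.mem_cons, List.mem_append, List.mem_map]
    right; right; right; right; exact ⟨x, hx, rfl⟩
  have h0 : 0 ∈ rV V E := by simp [rV]
  have h1 : 1 ∈ rV V E := by simp [rV]
  rcases he with ⟨x, hx, (rfl | rfl | rfl | rfl | rfl)⟩ | ⟨v, hv', rfl⟩
  · exact ⟨h0, ha x hx, by simp⟩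
  · exact ⟨ha x hx, hv _ (h.2.1 _ (zip_fst hx)).1, by simp; omega⟩
  · exact ⟨h0, hb x hx, by simp⟩
  · exact ⟨hb x hx, hv _ (h.2.1 _ (zip_fst hx)).2.1, by simp; omega⟩
  · refine ⟨hv _ (h.2.1 _ (zip_fst hx)).1, hv _ (h.2.1 _ (zip_fst hx)).2.1, ?_⟩
    have := (h.2.1 _ (zip_fst hx)).2.2
    simp only [ne_eq]
    omega
  · exact ⟨hv v hv', h1, by simp⟩

theorem rE_nodup {V : List ℕ} {E : List (ℕ × ℕ)} (h : IsGraph V E) :
    ((rE V E).map (fun e => s(e.1.1, e.1.2))).Nodup := by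
  unfold rE
  simp only [List.map_append, List.map_map]
  have hz := zipIdx_nodup' E
  simp only [List.nodup_append', List.disjoint_append_right]
  have hE : ∀ x ∈ E.zipIdx, ∀ y ∈ E.zipIdx, s(3 * x.1.1 + 2, 3 * x.1.2 + 2) =
      s(3 * y.1.1 + 2, 3 * y.1.2 + 2) → x = y := by
    intro x hx y hy hxy
    have h1 : s(x.1.1, x.1.2) = s(y.1.1, y.1.2) := by
      rw [Sym2.eq_iff] at hxy ⊢
      omega
    have h2 : x.1 = y.1 := List.inj_on_of_nodup_map h.2.2 (zip_fst hx) (zip_fst hy) h1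
    have h3 : E.Nodup := List.Nodup.of_map _ h.2.2
    obtain ⟨a, i⟩ := x
    obtain ⟨b, j⟩ := y
    rw [List.mem_zipIdx_iff_getElem?] at hx hy
    simp only at h2 hx hy
    subst h2
    obtain ⟨hi, hi'⟩ := List.getElem?_eq_some_iff.1 hx
    obtain ⟨hj, hj'⟩ := List.getElem?_eq_some_iff.1 hy
    have := (List.Nodup.getElem_inj_iff h3 (hi := hi) (hj := hj)).1 (by rw [hi', hj'])
    rw [this]
  refine ⟨?_, ⟨?_, ⟨?_, ⟨?_, ⟨?_, ?_, ?_⟩, ?_, ?_⟩, ?_, ?_, ?_⟩, ?_, ?_, ?_, ?_⟩, ?_, ?_, ?_, ?_, ?_⟩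
  · refine hz.map_on fun x hx y hy hxy => zip_inj hx hy ?_
    simp only [Function.comp, Sym2.eq_iff] at hxy
    omega
  · refine hz.map_on fun x hx y hy hxy => zip_inj hx hy ?_
    simp only [Function.comp, Sym2.eq_iff] at hxy
    omega
  · refine hz.map_on fun x hx y hy hxy => zip_inj hx hy ?_
    simp only [Function.comp, Sym2.eq_iff] at hxy
    omega
  · refine hz.map_on fun x hx y hy hxy => zip_inj hx hy ?_
    simp only [Function.comp, Sym2.eq_iff] at hxy
    omega
  · exact hz.map_on fun x hx y hy hxy => hE x hx y hy hxy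
  · refine h.1.map_on fun x hx y hy hxy => ?_
    simp only [Function.comp, Sym2.eq_iff] at hxy
    omega
  all_goals
    intro a ha hb
    simp only [List.mem_map, Function.comp] at ha hb
    obtain ⟨x, hx, rfl⟩ := ha
    obtain ⟨y, hy, hxy⟩ := hb
    simp only [Sym2.eq_iff] at hxy
    omega

theorem isColoured_red {V : List ℕ} {E : List (ℕ × ℕ)} (h : IsGraph V E) :
    IsColouredGraph (rV V E) (rE V E) := ⟨rV_nodup h, rE_ends h, rE_nodup h⟩

/-! ### Sizes of cuts -/

theorem countP_sum5 {α : Type} (p1 p2 p3 p4 p5 q : α → Bool) : ∀ l : List α,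
    (∀ x ∈ l, 2 * (if q x then 1 else 0) ≤ (if p1 x then 1 else 0) + (if p2 x then 1 else 0) +
      (if p3 x then 1 else 0) + (if p4 x then 1 else 0) + (if p5 x then 1 else 0)) →
    2 * l.countP q ≤ l.countP p1 + l.countP p2 + l.countP p3 + l.countP p4 + l.countP p5
  | [], _ => by simp
  | a :: l, h => by
    have ih := countP_sum5 p1 p2 p3 p4 p5 q l (fun x hx => h x (List.mem_cons_of_mem _ hx))
    have ha := h a (by simp)
    simp only [List.countP_cons]
    omega

theorem countP_sum5' {α : Type} (p1 p2 p3 p4 p5 q : α → Bool) : ∀ l : List α,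
    (∀ x ∈ l, (if p1 x then 1 else 0) + (if p2 x then 1 else 0) +
      (if p3 x then 1 else 0) + (if p4 x then 1 else 0) + (if p5 x then 1 else 0) ≤
        2 * (if q x then 1 else 0)) →
    l.countP p1 + l.countP p2 + l.countP p3 + l.countP p4 + l.countP p5 ≤ 2 * l.countP q
  | [], _ => by simp
  | a :: l, h => by
    have ih := countP_sum5' p1 p2 p3 p4 p5 q l (fun x hx => h x (List.mem_cons_of_mem _ hx))
    have ha := h a (by simp)
    simp only [List.countP_cons]
    omega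

/-- The number of red edges in a cut of the constructed graph. -/
theorem cut_true (V : List ℕ) (E : List (ℕ × ℕ)) (X : Finset ℕ) : cutSize (rE V E) true X =
    E.zipIdx.countP (fun x => decide (¬ (0 ∈ X ↔ 3 * x.2 + 3 ∈ X))) +
    E.zipIdx.countP (fun x => decide (¬ (3 * x.2 + 3 ∈ X ↔ 3 * x.1.1 + 2 ∈ X))) +
    E.zipIdx.countP (fun x => decide (¬ (0 ∈ X ↔ 3 * x.2 + 4 ∈ X))) +
    E.zipIdx.countP (fun x => decide (¬ (3 * x.2 + 4 ∈ X ↔ 3 * x.1.2 + 2 ∈ X))) +
    E.zipIdx.countP (fun x => decide (¬ (3 * x.1.1 + 2 ∈ X ↔ 3 * x.1.2 + 2 ∈ X))) := by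
  unfold cutSize rE
  simp only [List.countP_append, List.countP_map, Function.comp_def, true_and, Bool.false_eq_true,
    false_and, decide_false, List.countP_false, Function.const_apply]
  omega

/-- The number of blue edges in a cut of the constructed graph. -/
theorem cut_false (V : List ℕ) (E : List (ℕ × ℕ)) (X : Finset ℕ) : cutSize (rE V E) false X =
    V.countP (fun v => decide (¬ (3 * v + 2 ∈ X ↔ 1 ∈ X))) := by
  unfold cutSize rE
  simp only [List.countP_append, List.countP_map, Function.comp_def, true_and, Bool.true_eq_false,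
    false_and, decide_false, List.countP_false, Function.const_apply]
  omega

theorem countP_zipIdx {α : Type} (l : List α) (p : α → Bool) :
    l.zipIdx.countP (fun x => p x.1) = l.countP p := by
  conv_rhs => rw [← List.zipIdx_map_fst 0 l, List.countP_map]
  rfl


theorem countP_mem_le {V : List ℕ} (hV : V.Nodup) (U : Finset ℕ) :
    V.countP (fun v => decide (v ∈ U)) ≤ U.card := by
  rw [List.countP_eq_length_filter, ← List.toFinset_card_of_nodup (hV.filter _)]
  apply Finset.card_le_card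
  intro v hv
  simp only [List.mem_toFinset, List.mem_filter, decide_eq_true_eq] at hv
  exact hv.2

theorem card_filter_le {V : List ℕ} (hV : V.Nodup) (p : ℕ → Prop) [DecidablePred p] :
    (V.toFinset.filter p).card ≤ V.countP (fun v => decide (p v)) := by
  rw [List.countP_eq_length_filter, ← List.toFinset_card_of_nodup (hV.filter _)]
  apply Finset.card_le_card
  intro v hv
  simp only [Finset.mem_filter, List.mem_toFinset, List.mem_filter, decide_eq_true_eq] at hv ⊢
  exact hv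

theorem countP_not_add {α : Type} (l : List α) (p : α → Bool) :
    l.countP (fun x => !p x) + l.countP p = l.length := by
  have := List.length_eq_countP_add_countP (p := p) (l := l)
  simp only [Bool.not_eq_true] at this
  have e : l.countP (fun x => !p x) = l.countP (fun a => decide (p a = false)) := by
    congr 1
    funext x
    cases p x <;> rfl
  omega

theorem noInst_no : ¬ RedBlueCut noInst := by
  rintro ⟨-, -, -, -, X, -, h0, h1, h, -⟩
  simp only [noInst] at h0 h1 h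
  simp [cutSize, h0, h1] at h

theorem red_correct {V : List ℕ} {E : List (ℕ × ℕ)} {k : ℕ} (h : IsGraph V E) (hk : 2 ≤ k) :
    CLIQUE ((V, E), k) ↔ RedBlueCut (red ((V, E), k)) := by
  have hchoose : k.choose 2 = k * (k - 1) / 2 := Nat.choose_two_right k
  have hins : ∀ U : Finset ℕ, inside E U ≤ E.length := fun U => List.countP_le_length
  have hq : ∀ U : Finset ℕ, E.zipIdx.countP
      (fun x => !(decide (x.1.1 ∈ U) && decide (x.1.2 ∈ U))) + inside E U = E.length := by
    intro U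
    have h1 := countP_not_add E (fun e => decide (e.1 ∈ U) && decide (e.2 ∈ U))
    have h2 := countP_zipIdx E (fun e => !(decide (e.1 ∈ U) && decide (e.2 ∈ U)))
    rw [h2]
    exact h1
  unfold red
  by_cases hle : k * (k - 1) / 2 ≤ E.length
  swap
  · simp only [if_neg hle]
    constructor
    · rintro ⟨-, hc⟩
      obtain ⟨U, -, -, hU⟩ := (hasClique_iff h hk).1 hc
      have := hins U
      omega
    · intro h'; exact absurd h' noInst_no
  simp only [if_pos hle]
  unfold CLIQUE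
  simp only
  rw [hasClique_iff h hk]
  constructor
  · rintro ⟨-, U, hUV, hUk, hU⟩
    refine ⟨isColoured_red h, by simp [rV], by simp [rV], by simp, ?_⟩
    let X : Finset ℕ := insert 0 (U.image (fun v => 3 * v + 2) ∪
      ((E.zipIdx.map (fun x => 3 * x.2 + 3)).toFinset ∪
        (E.zipIdx.map (fun x => 3 * x.2 + 4)).toFinset))
    have h0 : 0 ∈ X := by simp [X]
    have h1 : 1 ∉ X := by
      simp only [X, Finset.mem_insert, Finset.mem_union, Finset.mem_image, List.mem_toFinset,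
        List.mem_map]
      rintro (h | ⟨v, -, h⟩ | ⟨v, -, h⟩ | ⟨v, -, h⟩) <;> omega
    have hv : ∀ v, 3 * v + 2 ∈ X ↔ v ∈ U := by
      intro v
      simp only [X, Finset.mem_insert, Finset.mem_union, Finset.mem_image, List.mem_toFinset,
        List.mem_map]
      constructor
      · rintro (h | ⟨w, hw, h⟩ | ⟨w, -, h⟩ | ⟨w, -, h⟩)
        · omega
        · have : w = v := by omega
          exact this ▸ hw
        · omega
        · omega
      · intro h
        exact Or.inr (Or.inl ⟨v, h, rfl⟩)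
    have ha : ∀ x ∈ E.zipIdx, 3 * x.2 + 3 ∈ X := by
      intro x hx
      simp only [X, Finset.mem_insert, Finset.mem_union, Finset.mem_image, List.mem_toFinset,
        List.mem_map]
      exact Or.inr (Or.inr (Or.inl ⟨x, hx, rfl⟩))
    have hb : ∀ x ∈ E.zipIdx, 3 * x.2 + 4 ∈ X := by
      intro x hx
      simp only [X, Finset.mem_insert, Finset.mem_union, Finset.mem_image, List.mem_toFinset,
        List.mem_map]
      exact Or.inr (Or.inr (Or.inr ⟨x, hx, rfl⟩))
    refine ⟨X, ?_, h0, h1, ?_, ?_⟩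
    · intro x hx
      simp only [X, Finset.mem_insert, Finset.mem_union, Finset.mem_image, List.mem_toFinset,
        List.mem_map] at hx
      simp only [rV, List.mem_cons, List.mem_append, List.mem_map]
      rcases hx with h | ⟨v, hv, h⟩ | ⟨v, hv, h⟩ | ⟨v, hv, h⟩
      · exact Or.inl h
      · exact Or.inr (Or.inr (Or.inl ⟨v, hUV v hv, h⟩))
      · exact Or.inr (Or.inr (Or.inr (Or.inl ⟨v, hv, h⟩)))
      · exact Or.inr (Or.inr (Or.inr (Or.inr ⟨v, hv, h⟩)))
    · simp only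
      rw [cut_true]
      have key := countP_sum5' (fun x => decide (¬ (0 ∈ X ↔ 3 * x.2 + 3 ∈ X)))
        (fun x => decide (¬ (3 * x.2 + 3 ∈ X ↔ 3 * x.1.1 + 2 ∈ X)))
        (fun x => decide (¬ (0 ∈ X ↔ 3 * x.2 + 4 ∈ X)))
        (fun x => decide (¬ (3 * x.2 + 4 ∈ X ↔ 3 * x.1.2 + 2 ∈ X)))
        (fun x => decide (¬ (3 * x.1.1 + 2 ∈ X ↔ 3 * x.1.2 + 2 ∈ X)))
        (fun x => !(decide (x.1.1 ∈ U) && decide (x.1.2 ∈ U))) E.zipIdx (by
          intro x hx
          simp only [h0, ha x hx, hb x hx, hv]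
          by_cases hu : x.1.1 ∈ U <;> by_cases hw : x.1.2 ∈ U <;> simp [hu, hw])
      have h2 := hq U
      omega
    · simp only
      rw [cut_false]
      have : V.countP (fun v => decide (¬ (3 * v + 2 ∈ X ↔ 1 ∈ X))) =
          V.countP (fun v => decide (v ∈ U)) := by
        congr 1
        funext v
        simp [h1, hv]
      rw [this]
      exact (countP_mem_le h.1 U).trans hUk
  · rintro ⟨-, -, -, -, X, -, h0, h1, hr, hb⟩
    simp only at h0 h1 hr hb
    refine ⟨h, V.toFinset.filter (fun v => 3 * v + 2 ∈ X), ?_, ?_, ?_⟩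
    · intro v hv
      simp only [Finset.mem_filter, List.mem_toFinset] at hv
      exact hv.1
    · refine (card_filter_le h.1 _).trans ?_
      rw [cut_false] at hb
      refine le_trans (le_of_eq ?_) hb
      congr 1
      funext v
      simp [h1]
    · rw [cut_true] at hr
      have key := countP_sum5 (fun x => decide (¬ (0 ∈ X ↔ 3 * x.2 + 3 ∈ X)))
        (fun x => decide (¬ (3 * x.2 + 3 ∈ X ↔ 3 * x.1.1 + 2 ∈ X)))
        (fun x => decide (¬ (0 ∈ X ↔ 3 * x.2 + 4 ∈ X)))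
        (fun x => decide (¬ (3 * x.2 + 4 ∈ X ↔ 3 * x.1.2 + 2 ∈ X)))
        (fun x => decide (¬ (3 * x.1.1 + 2 ∈ X ↔ 3 * x.1.2 + 2 ∈ X)))
        (fun x => !(decide (x.1.1 ∈ V.toFinset.filter (fun v => 3 * v + 2 ∈ X)) &&
          decide (x.1.2 ∈ V.toFinset.filter (fun v => 3 * v + 2 ∈ X)))) E.zipIdx (by
          intro x hx
          obtain ⟨e1, e2, -⟩ := h.2.1 _ (zip_fst hx)
          simp only [h0, Finset.mem_filter, List.mem_toFinset, e1, e2, true_and, true_iff]
          by_cases hu : 3 * x.1.1 + 2 ∈ X <;> by_cases hw : 3 * x.1.2 + 2 ∈ X <;>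
            by_cases ha : 3 * x.2 + 3 ∈ X <;> by_cases hb : 3 * x.2 + 4 ∈ X <;>
            simp [hu, hw, ha, hb])
      have h2 := hq (V.toFinset.filter (fun v => 3 * v + 2 ∈ X))
      omega

end Pool.Agent.Q321.RB
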